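import Pool.Agent.Y253.CR.Stm
import Pool.Agent.Helper952.Croft.RadBasic

/-!
# Project CR (MP_f884a2_an): levels with negligible level sets, area of kill sets
-/

set_option autoImplicit false

open MeasureTheory Real Set Filter Topology Croft

namespace Pool.Agent.Y253.CR

namespace AreaAux

theorem rad_cont {h : ℂ → ℝ} (hh : Nice h) : Continuous fun p : ℝ => Rad h (0, p) :=
  (Rad_contDiff h hh.c1 hh.supp).continuous.comp (by fun_prop)

theorem small {f : ℝ → ℝ} (hf : Continuous f) (S : Finset ℝ)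
    (hS : ∀ s ∈ S, volume {p : ℝ | p ∈ Icc (-1 : ℝ) 1 ∧ f p = s} = 0) {η : ℝ} (hη : 0 < η) :
    ∃ ε : ℝ, 0 < ε ∧ ε ≤ η ∧
      MeasurableSet {p : ℝ | p ∈ Icc (-1 : ℝ) 1 ∧ ∃ s ∈ S, |f p - s| < ε} ∧
      volume {p : ℝ | p ∈ Icc (-1 : ℝ) 1 ∧ ∃ s ∈ S, |f p - s| < ε} ≤ ENNReal.ofReal η := by
  obtain ⟨G, hG⟩ : ∃ G : ℕ → Set ℝ, G = fun n : ℕ =>
    {p : ℝ | p ∈ Icc (-1 : ℝ) 1 ∧ ∃ s ∈ S, |f p - s| < 1 / ((n : ℝ) + 1)} := ⟨_, rfl⟩
  have hGm : ∀ n, MeasurableSet (G n) := by
    intro n
    rw [hG]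
    have e1 : {p : ℝ | p ∈ Icc (-1 : ℝ) 1 ∧ ∃ s ∈ S, |f p - s| < 1 / ((n : ℝ) + 1)} =
        Icc (-1 : ℝ) 1 ∩ ⋃ s ∈ S, {p | |f p - s| < 1 / ((n : ℝ) + 1)} := by
      ext p
      simp only [mem_inter_iff, mem_iUnion]
      constructor
      · rintro ⟨h1, s, h2, h3⟩
        exact ⟨h1, s, h2, h3⟩
      · rintro ⟨h1, s, h2, h3⟩
        exact ⟨h1, s, h2, h3⟩
    show MeasurableSet {p : ℝ | p ∈ Icc (-1 : ℝ) 1 ∧ ∃ s ∈ S, |f p - s| < 1 / ((n : ℝ) + 1)}
    rw [e1]
    apply measurableSet_Icc.inter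
    apply IsOpen.measurableSet
    exact isOpen_biUnion fun s _ => isOpen_lt (by fun_prop) continuous_const
  have hanti : Antitone G := by
    intro n m hnm p hp
    rw [hG] at hp ⊢
    obtain ⟨h1, s, h2, h3⟩ := hp
    refine ⟨h1, s, h2, h3.trans_le ?_⟩
    exact one_div_le_one_div_of_le (by positivity) (by
      have : (n : ℝ) ≤ m := by exact_mod_cast hnm
      linarith)
  have hfin : volume (G 0) ≠ ⊤ := by
    have h1 : volume (G 0) ≤ volume (Icc (-1 : ℝ) 1) := measure_mono fun p hp => by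
      rw [hG] at hp
      exact hp.1
    have h2 : volume (Icc (-1 : ℝ) 1) < ⊤ := by
      rw [Real.volume_Icc]
      exact ENNReal.ofReal_lt_top
    exact (h1.trans_lt h2).ne
  have hlim := tendsto_measure_iInter_atTop (μ := volume)
    (fun n => (hGm n).nullMeasurableSet) hanti ⟨0, hfin⟩
  have hzero : volume (⋂ n, G n) = 0 := by
    have h1 : (⋂ n, G n) ⊆ ⋃ s ∈ S, {p : ℝ | p ∈ Icc (-1 : ℝ) 1 ∧ f p = s} := by
      intro p hp
      rw [mem_iInter] at hp
      simp only [mem_iUnion]
      by_contra hcon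
      push Not at hcon
      have h0 := hp 0
      rw [hG] at h0
      obtain ⟨g1, s, g2, -⟩ := h0
      obtain ⟨s0, hs0, hmin⟩ := S.exists_min_image (fun s => |f p - s|) ⟨s, g2⟩
      have hpos : 0 < |f p - s0| := by
        rw [abs_pos, sub_ne_zero]
        intro h
        exact hcon s0 hs0 ⟨g1, h⟩
      obtain ⟨n, hn⟩ := exists_nat_one_div_lt hpos
      have h2 := hp n
      rw [hG] at h2
      obtain ⟨-, t, ht, h3⟩ := h2
      have h4 := hmin t ht
      linarith
    refine measure_mono_null h1 ?_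
    exact (measure_biUnion_null_iff (s := fun s => {p : ℝ | p ∈ Icc (-1 : ℝ) 1 ∧ f p = s})
      S.countable_toSet).mpr hS
  rw [hzero] at hlim
  have h1 : ∀ᶠ n in atTop, volume (G n) < ENNReal.ofReal η :=
    hlim.eventually_lt_const (ENNReal.ofReal_pos.mpr hη)
  have h2 : ∀ᶠ n : ℕ in atTop, 1 / ((n : ℝ) + 1) < η :=
    tendsto_one_div_add_atTop_nhds_zero_nat.eventually_lt_const hη
  obtain ⟨n, hn1, hn2⟩ := (h1.and h2).exists
  refine ⟨1 / ((n : ℝ) + 1), by positivity, hn2.le, ?_, ?_⟩
  · have := hGm n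
    rw [hG] at this
    exact this
  · rw [hG] at hn1
    exact hn1.le

theorem pt_eq (p σ : ℝ) : pt 0 p σ = Complex.measurableEquivRealProd.symm (p, σ) := by
  unfold pt
  apply Complex.ext <;> simp [Complex.measurableEquivRealProd]

theorem norm_ge (p σ : ℝ) : |p| ≤ ‖pt 0 p σ‖ := by
  have h : (pt 0 p σ).re = p := by
    unfold pt
    simp
  rw [← h]
  rw [h]
  conv_lhs => rw [← h]
  exact Complex.abs_re_le_norm _

end AreaAux

open AreaAux

theorem lev : S_LEV := by
  intro h hh a b hab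
  have hc := rad_cont hh
  have hcount := Measure.countable_meas_level_set_pos
    (μ := (volume : Measure ℝ).restrict (Icc (-1) 1)) hc.measurable
  by_contra hcon
  push Not at hcon
  have hsub : Ioo a b ⊆ {t : ℝ | 0 < ((volume : Measure ℝ).restrict (Icc (-1) 1))
      {p : ℝ | Rad h (0, p) = t}} := by
    intro s hs
    have h1 := hcon s hs.1 hs.2
    show 0 < ((volume : Measure ℝ).restrict (Icc (-1) 1)) {p : ℝ | Rad h (0, p) = s}
    have hm : MeasurableSet {p : ℝ | Rad h (0, p) = s} :=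
      (isClosed_eq hc continuous_const).measurableSet
    rw [Measure.restrict_apply hm, pos_iff_ne_zero]
    intro h2
    apply h1
    have h3 : {p : ℝ | p ∈ Icc (-1 : ℝ) 1 ∧ Rad h (0, p) = s} =
        {p : ℝ | Rad h (0, p) = s} ∩ Icc (-1) 1 := by
      ext p
      exact and_comm
    rw [h3]
    exact h2
  have h1 : volume (Ioo a b) = 0 := (hcount.mono hsub).measure_zero volume
  rw [Real.volume_Ioo, ENNReal.ofReal_eq_zero] at h1
  linarith

theorem area : S_AREA := by
  intro h hh S hS η hη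
  obtain ⟨ε, hε0, hε1, hGm, hG⟩ := small (rad_cont hh) S hS (by linarith : 0 < η / 8)
  refine ⟨ε, hε0, by linarith, fun U hU hUb hsec => ?_⟩
  obtain ⟨G, hGd⟩ : ∃ G : Set ℝ, G = {p : ℝ | p ∈ Icc (-1 : ℝ) 1 ∧ ∃ s ∈ S,
    |Rad h (0, p) - s| < ε} := ⟨_, rfl⟩
  rw [← hGd] at hGm hG
  have hmp := (Complex.volume_preserving_equiv_real_prod).symm Complex.measurableEquivRealProd
  have h1 : volume U = volume (Complex.measurableEquivRealProd.symm ⁻¹' U) := by
    rw [hmp.measure_preimage hU.nullMeasurableSet]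
  rw [h1, Measure.volume_eq_prod, Measure.prod_apply
    (Complex.measurableEquivRealProd.symm.measurable hU)]
  have hb : ∀ p : ℝ, volume (Prod.mk p ⁻¹' (Complex.measurableEquivRealProd.symm ⁻¹' U)) ≤
      (Icc (-1 : ℝ) 1).indicator (fun _ => ENNReal.ofReal ε) p +
        G.indicator (fun _ => ENNReal.ofReal 2) p := by
    intro p
    have e : Prod.mk p ⁻¹' (Complex.measurableEquivRealProd.symm ⁻¹' U) =
        {σ : ℝ | pt 0 p σ ∈ U} := by
      ext σ
      show Complex.measurableEquivRealProd.symm (p, σ) ∈ U ↔ pt 0 p σ ∈ U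
      rw [pt_eq]
    rw [e]
    by_cases hp : p ∈ Icc (-1 : ℝ) 1
    · by_cases hpG : p ∈ G
      · rw [indicator_of_mem hpG]
        refine le_trans ?_ (le_add_left le_rfl)
        have h2 : {σ : ℝ | pt 0 p σ ∈ U} ⊆ Icc (-1) 1 := by
          intro σ hσ
          have h3 : ‖pt 0 p σ‖ < 1 := by
            have := hUb hσ
            simpa using this
          have h4 : |σ| < 1 := by
            by_contra h5
            push Not at h5
            exact absurd h3 (not_lt.mpr (one_le_norm_pt 0 p σ h5))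
          exact ⟨(abs_lt.mp h4).1.le, (abs_lt.mp h4).2.le⟩
        refine (measure_mono h2).trans ?_
        rw [Real.volume_Icc]
        norm_num
      · rw [indicator_of_mem hp]
        refine le_trans ?_ (le_add_right le_rfl)
        apply hsec (0, p)
        intro s hs
        by_contra h2
        push Not at h2
        apply hpG
        rw [hGd]
        exact ⟨hp, s, hs, h2⟩
    · have h2 : {σ : ℝ | pt 0 p σ ∈ U} = ∅ := by
        rw [eq_empty_iff_forall_notMem]
        intro σ hσ
        have h3 : ‖pt 0 p σ‖ < 1 := by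
          have := hUb hσ
          simpa using this
        apply hp
        have h4 := (norm_ge p σ).trans_lt h3
        exact ⟨(abs_lt.mp h4).1.le, (abs_lt.mp h4).2.le⟩
      rw [h2, measure_empty]
      exact bot_le
  refine (lintegral_mono hb).trans ?_
  rw [lintegral_add_right _ (measurable_const.indicator hGm), lintegral_indicator_const
    measurableSet_Icc, lintegral_indicator_const hGm, Real.volume_Icc]
  have h3 : ENNReal.ofReal ε * ENNReal.ofReal (1 - -1) + ENNReal.ofReal 2 * volume G ≤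
      ENNReal.ofReal (η / 4) + ENNReal.ofReal (η / 4) := by
    apply add_le_add
    · rw [← ENNReal.ofReal_mul hε0.le]
      apply ENNReal.ofReal_le_ofReal
      linarith
    · calc ENNReal.ofReal 2 * volume G ≤ ENNReal.ofReal 2 * ENNReal.ofReal (η / 8) :=
            mul_le_mul_right hG _
        _ = ENNReal.ofReal (η / 4) := by
            rw [← ENNReal.ofReal_mul (by norm_num)]
            congr 1
            ring
  refine h3.trans ?_
  rw [← ENNReal.ofReal_add (by positivity) (by positivity)]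
  apply ENNReal.ofReal_le_ofReal
  linarith

end Pool.Agent.Y253.CR
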