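import Pool.Agent.Y253.CR.Stm
import Pool.Agent.Helper546.CB.Fin2

/-! Project CR (helper253, MP_f884a2_an): the smooth starting density near an indicator
(helper41). -/

open MeasureTheory Real Set Filter Topology Croft

namespace Pool.Agent.Y253.CR

namespace Base

/-- a smooth cut-off function -/
lemma cutoff (K V : Set ℂ) (hK : IsCompact K) (hV : IsOpen V) (hKV : K ⊆ V) :
    ∃ g : ℂ → ℝ, ContDiff ℝ 1 g ∧ (∀ z, g z ∈ Icc (0 : ℝ) 1) ∧ (∀ z ∈ K, g z = 1) ∧
      ∀ z, z ∉ V → g z = 0 := by
  obtain ⟨f, hf0, hf1, hf⟩ := exists_contMDiffMap_zero_one_of_isClosed (n := 1)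
    (modelWithCornersSelf ℝ ℂ) (s := Vᶜ) (t := K) hV.isClosed_compl hK.isClosed
    (disjoint_left.mpr fun z hz1 hz2 => hz1 (hKV hz2))
  refine ⟨f, ?_, fun z => hf z, fun z hz => hf1 hz, fun z hz => hf0 hz⟩
  exact f.contMDiff.contDiff

lemma hz_le (z : ℂ) : F2.hz z ≤ 1 / 100 := by
  unfold F2.hz
  have := F2.eng_le_one (1 - ‖z‖ ^ 2)
  linarith

lemma rad_smul (κ : ℝ) (l : ℝ × ℝ) : Rad (fun z => κ * F2.hz z) l = κ * Rad F2.hz l := by
  unfold Rad
  exact integral_const_mul κ _

end Base

open Base in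
theorem base : S_BASE := by
  intro F hF hFb ε hε
  have hFv : volume F ≠ ⊤ :=
    ((measure_mono hFb).trans_lt measure_ball_lt_top).ne
  have he4 : ENNReal.ofReal (ε / 4) ≠ 0 := by
    rw [ne_eq, ENNReal.ofReal_eq_zero, not_le]
    positivity
  obtain ⟨K, hKF, hK, hKv⟩ := hF.exists_isCompact_sdiff_lt hFv he4
  obtain ⟨U, hFU, hU, -, hUv⟩ := hF.exists_isOpen_sdiff_lt hFv he4
  set V : Set ℂ := U ∩ Metric.ball 0 (3 / 4) with hVdef
  have hV : IsOpen V := hU.inter Metric.isOpen_ball
  have hFV : F ⊆ V := fun z hz => ⟨hFU hz, Metric.ball_subset_ball (by norm_num) (hFb hz)⟩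
  obtain ⟨g, hg1, hg2, hg3, hg4⟩ := cutoff K V hK hV (hKF.trans hFV)
  set κ : ℝ := min 1 (ε / 8) with hκ
  have hκ0 : 0 < κ := lt_min one_pos (by positivity)
  have hκ1 : κ ≤ 1 := min_le_left _ _
  have hκ2 : κ ≤ ε / 8 := min_le_right _ _
  have hz0 : ∀ z, 0 ≤ F2.hz z := F2.hz_nice.nonneg
  have hz1 : ∀ z, F2.hz z ≤ 1 / 100 := hz_le
  have hg_out : ∀ z : ℂ, 3 / 4 ≤ ‖z‖ → g z = 0 := by
    intro z hz
    refine hg4 z fun hzV => ?_
    have := hzV.2
    rw [mem_ball_zero_iff] at this
    linarith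
  have hzs : ∀ z : ℂ, 1 ≤ ‖z‖ → F2.hz z = 0 := F2.hz_nice.supp
  -- pointwise facts
  have hkz : ∀ z, 0 ≤ κ * F2.hz z ∧ κ * F2.hz z ≤ κ / 100 := by
    intro z
    refine ⟨mul_nonneg hκ0.le (hz0 z), ?_⟩
    have := mul_le_mul_of_nonneg_left (hz1 z) hκ0.le
    linarith
  set h : ℂ → ℝ := fun z => g z + κ * F2.hz z * (1 - g z) with hh
  have hN : Nice h := by
    refine ⟨?_, ?_, ?_, ?_⟩
    · exact hg1.add ((contDiff_const.mul F2.hz_nice.c1).mul (contDiff_const.sub hg1))
    · intro z
      have h1 := (hg2 z).1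
      have h2 := (hg2 z).2
      have h3 := mul_nonneg (hkz z).1 (sub_nonneg.mpr h2)
      simp only [hh]
      linarith
    · intro z
      have h2 := (hg2 z).2
      have h3 : κ * F2.hz z ≤ 1 := by linarith [(hkz z).2]
      have h4 := mul_le_mul_of_nonneg_right h3 (sub_nonneg.mpr h2)
      simp only [hh]
      linarith
    · intro z hz
      simp only [hh]
      rw [hg_out z (by linarith), hzs z hz]
      ring
  have hge : ∀ z, κ * F2.hz z ≤ h z := by
    intro z
    have h1 := (hg2 z).1
    have h3 : 0 ≤ 1 - κ * F2.hz z := by linarith [(hkz z).2]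
    have h4 := mul_nonneg h1 h3
    simp only [hh]
    nlinarith
  have hkc : Continuous fun z => κ * F2.hz z := continuous_const.mul F2.hz_nice.c1.continuous
  have hks : ∀ z : ℂ, 1 ≤ ‖z‖ → κ * F2.hz z = 0 := fun z hz => by rw [hzs z hz, mul_zero]
  have hRge : ∀ l, κ * Rad F2.hz l ≤ Rad h l := by
    intro l
    rw [← rad_smul]
    exact F2.rad_mono hkc hks hN.c1.continuous hN.supp hge l
  refine ⟨h, hN, ?_, ?_, ?_, ?_⟩
  · intro l hl
    exact lt_of_lt_of_le (mul_pos hκ0 (F2.rad_hz_pos l hl)) (hRge l)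
  · -- the integral
    have hpt : ∀ z, |h z - F.indicator (fun _ => (1 : ℝ)) z|
        ≤ (V \ K).indicator (fun _ => (1 : ℝ)) z
          + (Metric.ball (0 : ℂ) 1).indicator (fun _ => κ / 100) z := by
      intro z
      have h1 : h z - F.indicator (fun _ => (1 : ℝ)) z
          = (g z - F.indicator (fun _ => (1 : ℝ)) z) + κ * F2.hz z * (1 - g z) := by
        simp only [hh]; ring
      have h2 : |g z - F.indicator (fun _ => (1 : ℝ)) z|
          ≤ (V \ K).indicator (fun _ => (1 : ℝ)) z := by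
        by_cases hzK : z ∈ K
        · rw [hg3 z hzK, indicator_of_mem (hKF hzK), sub_self, abs_zero]
          exact indicator_nonneg (fun _ _ => zero_le_one) _
        · by_cases hzV : z ∈ V
          · rw [indicator_of_mem (show z ∈ V \ K from ⟨hzV, hzK⟩)]
            have h3 := hg2 z
            by_cases hzF : z ∈ F
            · rw [indicator_of_mem hzF, abs_le]
              constructor <;> linarith [h3.1, h3.2]
            · rw [indicator_of_notMem hzF, abs_le]
              constructor <;> linarith [h3.1, h3.2]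
          · rw [hg4 z hzV, indicator_of_notMem (fun hzF => hzV (hFV hzF)), sub_self, abs_zero]
            exact indicator_nonneg (fun _ _ => zero_le_one) _
      have h3 : |κ * F2.hz z * (1 - g z)|
          ≤ (Metric.ball (0 : ℂ) 1).indicator (fun _ => κ / 100) z := by
        have h4 := hg2 z
        have h5 : 0 ≤ κ * F2.hz z * (1 - g z) := mul_nonneg (hkz z).1 (by linarith [h4.2])
        rw [abs_of_nonneg h5]
        by_cases hzb : z ∈ Metric.ball (0 : ℂ) 1
        · rw [indicator_of_mem hzb]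
          calc κ * F2.hz z * (1 - g z) ≤ κ * F2.hz z * 1 :=
                mul_le_mul_of_nonneg_left (by linarith [h4.1]) (hkz z).1
            _ ≤ κ / 100 := by rw [mul_one]; exact (hkz z).2
        · rw [indicator_of_notMem hzb]
          rw [mem_ball_zero_iff, not_lt] at hzb
          rw [hks z hzb, zero_mul]
      rw [h1]
      exact (abs_add_le _ _).trans (add_le_add h2 h3)
    have hVK : MeasurableSet (V \ K) := hV.measurableSet.diff hK.measurableSet
    have hVKv : volume (V \ K) ≤ ENNReal.ofReal (ε / 2) := by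
      have h1 : V \ K ⊆ (U \ F) ∪ (F \ K) := by
        intro z hz
        by_cases hzF : z ∈ F
        · exact Or.inr ⟨hzF, hz.2⟩
        · exact Or.inl ⟨hz.1.1, hzF⟩
      calc volume (V \ K) ≤ volume (U \ F) + volume (F \ K) :=
            (measure_mono h1).trans (measure_union_le _ _)
        _ ≤ ENNReal.ofReal (ε / 4) + ENNReal.ofReal (ε / 4) := add_le_add hUv.le hKv.le
        _ = ENNReal.ofReal (ε / 2) := by
            rw [← ENNReal.ofReal_add (by positivity) (by positivity)]
            congr 1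
            ring
    have hi1 : Integrable ((V \ K).indicator fun _ => (1 : ℝ)) := by
      rw [integrable_indicator_iff hVK]
      exact integrableOn_const (hVKv.trans_lt ENNReal.ofReal_lt_top).ne
    have hi2 : Integrable ((Metric.ball (0 : ℂ) 1).indicator fun _ => κ / 100) := by
      rw [integrable_indicator_iff measurableSet_ball]
      exact integrableOn_const measure_ball_lt_top.ne
    have h1 : ∫ z, |h z - F.indicator (fun _ => (1 : ℝ)) z|
        ≤ ∫ z, ((V \ K).indicator (fun _ => (1 : ℝ)) z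
          + (Metric.ball (0 : ℂ) 1).indicator (fun _ => κ / 100) z) :=
      integral_mono_of_nonneg (Eventually.of_forall fun z => abs_nonneg _) (hi1.add hi2)
        (Eventually.of_forall hpt)
    rw [integral_add hi1 hi2, integral_indicator_const _ hVK,
      integral_indicator_const _ measurableSet_ball, smul_eq_mul, smul_eq_mul, mul_one] at h1
    have h2 : volume.real (V \ K) ≤ ε / 2 := by
      rw [measureReal_def]
      exact ENNReal.toReal_le_of_le_ofReal (by positivity) hVKv
    have h3 : volume.real (Metric.ball (0 : ℂ) 1) = π := by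
      rw [measureReal_def, Complex.volume_ball]
      simp
    rw [h3] at h1
    have h4 : π * (κ / 100) ≤ 4 * (ε / 8 / 100) := by
      refine mul_le_mul Real.pi_le_four (by linarith) (by positivity) (by norm_num)
    linarith
  · intro θ p hp1 hp2
    have h1 : Rad h (θ, p) = κ * Rad F2.hz (θ, p) := by
      rw [← rad_smul]
      unfold Rad
      congr 1
      ext σ
      have h2 : 3 / 4 ≤ ‖pt θ p σ‖ := by
        have h3 := AI.norm_pt_sq θ p σ
        have h4 : (3 / 4 : ℝ) ^ 2 ≤ ‖pt θ p σ‖ ^ 2 := by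
          rw [h3]
          have h5 : (3 / 4 : ℝ) ^ 2 ≤ |p| ^ 2 := pow_le_pow_left₀ (by norm_num) hp1 2
          rw [sq_abs] at h5
          nlinarith [sq_nonneg σ]
        exact le_of_sq_le_sq h4 (norm_nonneg _)
      simp only [hh]
      rw [hg_out _ h2]
      ring
    rw [h1]
    have h2 := F2.rad_hz_upper θ p hp2
    have h3 := F2.rad_hz_pos (θ, p) hp2
    calc κ * Rad F2.hz (θ, p) ≤ 1 * Rad F2.hz (θ, p) := mul_le_mul_of_nonneg_right hκ1 h3.le
      _ ≤ _ := by rw [one_mul]; exact h2
  · intro τ hτ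
    obtain ⟨m, hm, hlow⟩ := F2.rad_hz_lower τ hτ
    refine ⟨κ * m, mul_pos hκ0 hm, fun θ p hp hτp => ?_⟩
    exact (mul_le_mul_of_nonneg_left (hlow θ p hp hτp) hκ0.le).trans (hRge (θ, p))

end Pool.Agent.Y253.CR
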