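import Mathlib
import Pool.Agent.Helper952.Croft.Defs
import Pool.Agent.Helper952.Croft.Kill2Stub
import Pool.Agent.Helper546.CB.Defs2

/-! Statements for the density version of the negative answer to Croft's question (MP_f884a2_an,
helper253): the counterexamples are dense in the measure algebra, and below every `t₀ > 0` a set of
lengths of the cardinality of the continuum is missed by all line sections. -/

open MeasureTheory Real Set Filter Topology Croft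

namespace Pool.Agent.Y253.CR

/-- starting density close to the indicator of `F` -/
def S_BASE : Prop :=
  ∀ F : Set ℂ, MeasurableSet F → F ⊆ Metric.ball 0 (1 / 2) → ∀ ε : ℝ, 0 < ε →
  ∃ h : ℂ → ℝ, Nice h ∧ (∀ l : ℝ × ℝ, |l.2| < 1 → 0 < Rad h l) ∧
    (∫ z, |h z - F.indicator (fun _ => (1 : ℝ)) z|) ≤ ε ∧
    (∀ θ p : ℝ, 3 / 4 ≤ |p| → |p| < 1 → Rad h (θ, p) ≤ √(1 - p ^ 2) / 50) ∧
    (∀ τ : ℝ, 0 < τ → ∃ m > 0, ∀ θ p : ℝ, |p| < 1 → τ ≤ 2 * √(1 - p ^ 2) → m ≤ Rad h (θ, p))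

/-- a level with negligible level set in the direction `0` -/
def S_LEV : Prop :=
  ∀ h : ℂ → ℝ, Nice h → ∀ a b : ℝ, a < b → ∃ s, a < s ∧ s < b ∧
    volume {p : ℝ | p ∈ Icc (-1 : ℝ) 1 ∧ Rad h (0, p) = s} = 0

/-- area of a set with small sections on all lines away from the levels of `S` -/
def S_AREA : Prop :=
  ∀ h : ℂ → ℝ, Nice h → ∀ S : Finset ℝ,
    (∀ s ∈ S, volume {p : ℝ | p ∈ Icc (-1 : ℝ) 1 ∧ Rad h (0, p) = s} = 0) →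
  ∀ η : ℝ, 0 < η → ∃ ε : ℝ, 0 < ε ∧ ε ≤ η ∧ ∀ U : Set ℂ, MeasurableSet U → U ⊆ Metric.ball 0 1 →
    (∀ l : ℝ × ℝ, (∀ s ∈ S, ε ≤ |Rad h l - s|) →
      volume {σ : ℝ | pt l.1 l.2 σ ∈ U} ≤ ENNReal.ofReal ε) →
    volume U ≤ ENNReal.ofReal η

/-- killing finitely many levels on a cell at the same time -/
def S_MULTI : Prop :=
  AI2Stmt → ∀ (x : ℝ × ℝ) (e c0 : ℝ), CellKill2 x e c0 →
  ∀ S : Finset ℝ, (∀ s ∈ S, 0 < s) → ∀ h : ℂ → ℝ, Nice h → (∀ l : ℝ × ℝ, |l.2| < 1 → 0 < Rad h l) →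
  ∀ β ε : ℝ, 0 < β → 0 < ε →
    ∃ h' : ℂ → ℝ, ∃ β' : ℝ, ∃ U : Set ℂ, Nice h' ∧ (∀ l : ℝ × ℝ, |l.2| < 1 → 0 < Rad h' l) ∧
      0 < β' ∧ MeasurableSet U ∧ U ⊆ Metric.ball 0 1 ∧ β' ≤ β / 2 ∧
      (∀ l, |Rad h' l - Rad h l| ≤ β / 2) ∧ (∀ l, |Rad h' l - Rad h l| ≤ ε * Rad h l) ∧
      (∀ l, Rad (fun z => |h' z - h z|) l ≤ 2 * Rad (fun z => h z * (1 - h z)) l + ε) ∧
      (∀ l, Rad (fun z => h' z * (1 - h' z)) l ≤ ε) ∧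
      (∀ s ∈ S, ∀ θ p, |θ - x.1| ≤ e → |p - x.2| ≤ e → |Rad h' (θ, p) - s| ≤ β' →
        ENNReal.ofReal c0 ≤ volume {σ : ℝ | pt θ p σ ∈ U}) ∧
      (∀ l : ℝ × ℝ, (∀ s ∈ S, ε ≤ |Rad h l - s|) →
        volume {σ : ℝ | pt l.1 l.2 σ ∈ U} ≤ ENNReal.ofReal ε)

/-- the limit set is close to the starting density -/
def S_CLOSE : Prop :=
  ∀ h : ℕ → ℂ → ℝ, (∀ n, Nice (h n)) → ∀ ε : ℝ, 0 < ε →
    (∀ n l, Rad (fun z => |h (n + 1) z - h n z|) l ≤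
      2 * Rad (fun z => h n z * (1 - h n z)) l + ε * (1 / 4) ^ (n + 1)) →
    (∀ n l, Rad (fun z => h (n + 1) z * (1 - h (n + 1) z)) l ≤ ε * (1 / 4) ^ (n + 1)) →
  ∀ F : Set ℂ, MeasurableSet F → F ⊆ Metric.ball 0 1 →
    volume (symmDiff {z | Tendsto (fun n => h n z) atTop (𝓝 1)} F) ≤
      ENNReal.ofReal (3 * (∫ z, |h 0 z - F.indicator (fun _ => (1 : ℝ)) z|) + 8 * ε)

/-- a branching family of centres gives continuum many limits -/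
def S_INJ : Prop :=
  ∀ (S : ℕ → Set ℝ) (r : ℕ → ℝ), (∀ n, 0 < r n) → (∀ n, r (n + 1) ≤ r n / 8) →
    (∀ n, ∀ s ∈ S n, ∃ s' ∈ S (n + 1), ∃ s'' ∈ S (n + 1),
      |s' - s| ≤ r n / 2 ∧ |s'' - s| ≤ r n / 2 ∧ r n / 2 ≤ |s' - s''|) →
  ∀ k, ∀ s ∈ S k, ∃ f : (ℕ → Bool) → ℝ, Function.Injective f ∧
    ∀ b, |f b - s| ≤ r k ∧ ∀ n ≥ k, ∃ s' ∈ S n, |f b - s'| ≤ r n

/-- the theorem in the unit disc -/
def S_DISC : Prop :=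
  ∀ F : Set ℂ, MeasurableSet F → F ⊆ Metric.ball 0 (1 / 2) → ∀ ε : ℝ, 0 < ε →
  ∃ E : Set ℂ, MeasurableSet E ∧ E ⊆ Metric.ball 0 1 ∧ 0 < volume E ∧
    volume (symmDiff E F) ≤ ENNReal.ofReal ε ∧
    ∀ t₀ : ℝ, 0 < t₀ → Cardinal.continuum ≤ Cardinal.mk {t : ℝ | 0 < t ∧ t < t₀ ∧
      ∀ θ p : ℝ, volume {σ : ℝ | pt θ p σ ∈ E} ≠ ENNReal.ofReal t}

/-- the final statement -/
def S_FINAL : Prop :=
  ∀ F : Set (EuclideanSpace ℝ (Fin 2)), NullMeasurableSet F volume → volume F < ⊤ →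
  ∀ ε : ℝ, 0 < ε → ∃ E : Set (EuclideanSpace ℝ (Fin 2)),
    MeasurableSet E ∧ Bornology.IsBounded E ∧ 0 < volume E ∧ volume E < ⊤ ∧
    volume (symmDiff E F) < ENNReal.ofReal ε ∧
    ∀ t₀ : ℝ, 0 < t₀ → Cardinal.mk {t : ℝ | 0 < t ∧ t < t₀ ∧
      ∀ a v : EuclideanSpace ℝ (Fin 2), ‖v‖ = 1 →
        volume {s : ℝ | a + s • v ∈ E} ≠ ENNReal.ofReal t} = Cardinal.continuum

end Pool.Agent.Y253.CR
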