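import Mathlib
import Pool.Agent.Y253.CR.Stm
import Pool.Agent.Helper991.Croft.AlmostIndicator

/-! Project CR (helper253, MP_f884a2_an): the limit set is close to the starting density. -/

open MeasureTheory Real Set Filter Topology Croft

namespace Pool.Agent.Y253.CR
namespace Close

lemma int_c {G : ℂ → ℝ} (hG : Continuous G) (h0 : ∀ z, 1 ≤ ‖z‖ → G z = 0) : Integrable G := by
  apply Continuous.integrable_of_hasCompactSupport hG
  apply HasCompactSupport.of_support_subset_isCompact (isCompact_closedBall (0 : ℂ) 1)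
  intro z hz
  rw [mem_closedBall_zero_iff]
  by_contra hc
  exact hz (h0 z (not_le.1 hc).le)

lemma rad_integrable {F : ℂ → ℝ} (hF : Integrable F) : Integrable (fun p : ℝ => Rad F (0, p)) := by
  have hmp := Complex.volume_preserving_equiv_real_prod.symm
  have hint : Integrable (fun q : ℝ × ℝ => F (Complex.measurableEquivRealProd.symm q)) := by
    exact (hmp.integrable_comp_emb (Complex.measurableEquivRealProd.symm.measurableEmbedding)).2 hF
  rw [Measure.volume_eq_prod] at hint
  have h1 := hint.integral_prod_left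
  refine h1.congr (Filter.Eventually.of_forall ?_)
  intro p
  show (∫ y : ℝ, F (Complex.measurableEquivRealProd.symm (p, y))) = Rad F (0, p)
  unfold Rad
  apply integral_congr_ae
  refine Filter.Eventually.of_forall ?_
  intro σ
  show F (Complex.measurableEquivRealProd.symm (p, σ)) = F (pt (0, p).1 (0, p).2 σ)
  congr 1
  unfold pt
  apply Complex.ext <;> simp

lemma rad_zero {F : ℂ → ℝ} (hs : ∀ z, 1 ≤ ‖z‖ → F z = 0) (p : ℝ) (hp : p ∉ Icc (-1 : ℝ) 1) :
    Rad F (0, p) = 0 := by
  have hp1 : 1 ≤ |p| := by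
    by_contra hcon
    push Not at hcon
    rw [abs_lt] at hcon
    exact hp ⟨hcon.1.le, hcon.2.le⟩
  unfold Rad
  have : ∀ σ : ℝ, F (pt (0, p).1 (0, p).2 σ) = 0 := fun σ => hs _ (AI.one_le_norm_pt' _ _ _ hp1)
  simp only [this, integral_zero]

/-- from bounds on all lines to bounds in the plane -/
lemma plane_le {G H : ℂ → ℝ} (hG : Continuous G) (g0 : ∀ z, 1 ≤ ‖z‖ → G z = 0)
    (hH : Continuous H) (h0 : ∀ z, 1 ≤ ‖z‖ → H z = 0) (a c : ℝ)
    (h : ∀ l, Rad G l ≤ a * Rad H l + c) : ∫ z, G z ≤ a * (∫ z, H z) + 2 * c := by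
  have iG := int_c hG g0
  have iH := int_c hH h0
  have jG := rad_integrable iG
  have jH := rad_integrable iH
  rw [AI.integral_eq_rad iG, AI.integral_eq_rad iH]
  have e1 : ∫ p : ℝ, Rad G (0, p) = ∫ p in Icc (-1 : ℝ) 1, Rad G (0, p) :=
    (setIntegral_eq_integral_of_forall_compl_eq_zero (rad_zero g0)).symm
  have e2 : ∫ p : ℝ, Rad H (0, p) = ∫ p in Icc (-1 : ℝ) 1, Rad H (0, p) :=
    (setIntegral_eq_integral_of_forall_compl_eq_zero (rad_zero h0)).symm
  have e3 : ∫ p in Icc (-1 : ℝ) 1, c = 2 * c := by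
    rw [setIntegral_const]
    simp only [measureReal_def, Real.volume_Icc, smul_eq_mul]
    norm_num
  have ic : IntegrableOn (fun _ : ℝ => c) (Icc (-1 : ℝ) 1) := integrableOn_const (by simp)
  rw [e1, e2, ← e3, ← integral_const_mul, ← integral_add (jH.integrableOn.const_mul a) ic]
  exact setIntegral_mono jG.integrableOn ((jH.integrableOn.const_mul a).add ic) (fun p => h _)

lemma ae_summable2 (f : ℕ → ℂ → ℝ) (hf : ∀ n, Integrable (f n)) (h0 : ∀ n z, 0 ≤ f n z) (a : ℕ → ℝ)
    (ha : Summable a) (h : ∀ n, ∫ z, f n z ≤ a n) : ∀ᵐ z : ℂ, Summable (fun n => f n z) := by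
  have ha0 : ∀ n, 0 ≤ a n := fun n => (integral_nonneg (h0 n)).trans (h n)
  have h1 : ∫⁻ z : ℂ, ∑' n, ENNReal.ofReal (f n z) ≠ ⊤ := by
    rw [lintegral_tsum (fun n => (hf n).aestronglyMeasurable.aemeasurable.ennreal_ofReal)]
    have h2 : ∀ n, ∫⁻ z : ℂ, ENNReal.ofReal (f n z) ≤ ENNReal.ofReal (a n) := by
      intro n
      rw [← ofReal_integral_eq_lintegral_ofReal (hf n) (Filter.Eventually.of_forall (h0 n))]
      exact ENNReal.ofReal_le_ofReal (h n)
    refine ne_top_of_le_ne_top ?_ (ENNReal.tsum_le_tsum h2)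
    rw [← ENNReal.ofReal_tsum_of_nonneg ha0 ha]
    exact ENNReal.ofReal_ne_top
  have hm : AEMeasurable (fun z : ℂ => ∑' n, ENNReal.ofReal (f n z)) volume :=
    AEMeasurable.tsum (fun n => (hf n).aestronglyMeasurable.aemeasurable.ennreal_ofReal)
  have h3 := ae_lt_top' hm h1
  filter_upwards [h3] with z hz
  have h4 := ENNReal.summable_toReal hz.ne
  refine h4.congr ?_
  intro n
  exact ENNReal.toReal_ofReal (h0 n z)

end Close

open Close

theorem close : S_CLOSE := by
  intro h hn ε hε dif J F hF hFb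
  have cont : ∀ n, Continuous (h n) := fun n => (hn n).c1.continuous
  have supp : ∀ n z, 1 ≤ ‖z‖ → h n z = 0 := fun n => (hn n).supp
  have nn : ∀ n z, 0 ≤ h n z := fun n => (hn n).nonneg
  have le1 : ∀ n z, h n z ≤ 1 := fun n => (hn n).le_one
  -- continuity and support
  have cD : ∀ m n, Continuous (fun z => |h m z - h n z|) := fun m n => ((cont m).sub (cont n)).abs
  have sD : ∀ m n z, 1 ≤ ‖z‖ → |h m z - h n z| = 0 := fun m n z hz => by
    rw [supp m z hz, supp n z hz]; simp
  have cK : ∀ n, Continuous (fun z => h n z * (1 - h n z)) := fun n =>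
    (cont n).mul (continuous_const.sub (cont n))
  have sK : ∀ n z, 1 ≤ ‖z‖ → h n z * (1 - h n z) = 0 := fun n z hz => by rw [supp n z hz]; simp
  have iD : ∀ m n, Integrable (fun z => |h m z - h n z|) := fun m n => int_c (cD m n) (sD m n)
  have iK : ∀ n, Integrable (fun z => h n z * (1 - h n z)) := fun n => int_c (cK n) (sK n)
  have hI : ∀ n, ∫ z, |h (n + 1) z - h n z| ≤
      2 * (∫ z, h n z * (1 - h n z)) + 2 * (ε * (1 / 4) ^ (n + 1)) := fun n =>
    plane_le (cD (n + 1) n) (sD (n + 1) n) (cK n) (sK n) 2 _ (dif n)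
  have hK : ∀ n, ∫ z, h (n + 1) z * (1 - h (n + 1) z) ≤ 2 * (ε * (1 / 4) ^ (n + 1)) := by
    intro n
    have := plane_le (cK (n + 1)) (sK (n + 1)) (cK (n + 1)) (sK (n + 1)) 0 (ε * (1 / 4) ^ (n + 1))
      (fun l => by have := J n l; linarith)
    linarith
  set K0 : ℝ := ∫ z, h 0 z * (1 - h 0 z) with hK0
  have hqs : ∀ n : ℕ, ((1 : ℝ) / 4) ^ (n + 1 + 1) = (1 / 4) ^ (n + 1) * (1 / 4) := fun n => pow_succ _ _
  have hI1 : ∀ n, ∫ z, |h (n + 1 + 1) z - h (n + 1) z| ≤ 9 / 2 * ε * (1 / 4) ^ (n + 1) := by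
    intro n
    have a1 := hI (n + 1)
    have a2 := hK n
    rw [hqs] at a1
    linarith
  have hD : ∀ n, ∫ z, |h (n + 1) z - h 0 z| ≤ 2 * K0 + 2 * ε * (1 - 3 * (1 / 4) ^ (n + 1)) := by
    intro n
    induction n with
    | zero =>
      have := hI 0
      norm_num at this ⊢
      linarith
    | succ n ih =>
      have b1 : ∫ z, |h (n + 1 + 1) z - h 0 z| ≤
          (∫ z, |h (n + 1 + 1) z - h (n + 1) z|) + ∫ z, |h (n + 1) z - h 0 z| := by
        rw [← integral_add (iD _ _) (iD _ _)]
        apply integral_mono (iD _ _) ((iD _ _).add (iD _ _))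
        intro z
        exact abs_sub_le _ _ _
      have b2 := hI1 n
      rw [hqs]
      linarith
  have hD' : ∀ n, ∫ z, |h (n + 1) z - h 0 z| ≤ 2 * K0 + 2 * ε := by
    intro n
    have a := hD n
    have : 0 < ε * (1 / 4) ^ (n + 1) := by positivity
    linarith
  -- convergence almost everywhere
  have s2 : Summable (fun n : ℕ => ((1:ℝ) / 4) ^ (n + 1)) :=
    (summable_nat_add_iff 1).2 (summable_geometric_of_lt_one (by norm_num) (by norm_num))
  have b1 := ae_summable2 (fun n z => |h (n + 1 + 1) z - h (n + 1) z|) (fun n => iD _ _)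
    (fun n z => abs_nonneg _) _ (s2.mul_left (9 / 2 * ε)) hI1
  have b2 := ae_summable2 (fun n z => h (n + 1) z * (1 - h (n + 1) z)) (fun n => iK _)
    (fun n z => mul_nonneg (nn _ _) (by linarith [le1 (n + 1) z])) _ ((s2.mul_left ε).mul_left 2) hK
  have conv : ∀ᵐ z : ℂ, Tendsto (fun n => h n z) atTop (𝓝 0) ∨
      Tendsto (fun n => h n z) atTop (𝓝 1) := by
    filter_upwards [b1, b2] with z z1 z2
    have k1 : CauchySeq (fun n => h (n + 1) z) := by
      apply cauchySeq_of_summable_dist
      refine z1.congr ?_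
      intro n
      rw [Real.dist_eq, abs_sub_comm]
    obtain ⟨L, hL⟩ := cauchySeq_tendsto_of_complete k1
    have k2 := z2.tendsto_atTop_zero
    have k3 : Tendsto (fun n => h (n + 1) z * (1 - h (n + 1) z)) atTop (𝓝 (L * (1 - L))) :=
      hL.mul (hL.const_sub 1)
    have k4 := tendsto_nhds_unique k2 k3
    have hL' : Tendsto (fun n => h n z) atTop (𝓝 L) := (tendsto_add_atTop_iff_nat 1).1 hL
    rcases mul_eq_zero.1 k4.symm with h | h
    · left; rw [h] at hL'; exact hL'
    · right
      have : L = 1 := by linarith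
      rw [this] at hL'; exact hL'
  set E : Set ℂ := {z | Tendsto (fun n => h n z) atTop (𝓝 1)} with hE
  have mE : MeasurableSet E := measurableSet_tendsto _ (fun n => (cont n).measurable)
  have Eb : E ⊆ Metric.ball 0 1 := by
    intro z hz
    rw [mem_ball_zero_iff]
    by_contra hcon
    push Not at hcon
    have h1 : Tendsto (fun n => h n z) atTop (𝓝 0) := by
      have : (fun n => h n z) = fun _ => 0 := by
        ext n
        exact supp n z hcon
      rw [this]
      exact tendsto_const_nhds
    have := tendsto_nhds_unique h1 hz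
    norm_num at this
  have vb : volume (Metric.ball (0 : ℂ) 1) ≠ ⊤ := measure_ball_lt_top.ne
  have iE : Integrable (E.indicator (fun _ => (1 : ℝ))) := by
    rw [integrable_indicator_iff mE]
    exact integrableOn_const (ne_top_of_le_ne_top vb (measure_mono Eb))
  have iF : Integrable (F.indicator (fun _ => (1 : ℝ))) := by
    rw [integrable_indicator_iff hF]
    exact integrableOn_const (ne_top_of_le_ne_top vb (measure_mono hFb))
  have i0 : Integrable (h 0) := int_c (cont 0) (supp 0)
  have lim : Tendsto (fun n => ∫ z, |h (n + 1) z - h 0 z|) atTop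
      (𝓝 (∫ z, |E.indicator (fun _ => (1 : ℝ)) z - h 0 z|)) := by
    apply tendsto_integral_of_dominated_convergence
      (Set.indicator (Metric.ball (0 : ℂ) 1) (fun _ => (1:ℝ)))
    · intro n
      exact (cD _ _).aestronglyMeasurable
    · rw [integrable_indicator_iff measurableSet_ball]
      exact integrableOn_const vb
    · intro n
      refine Filter.Eventually.of_forall ?_
      intro z
      rw [Real.norm_eq_abs, abs_abs]
      by_cases hz : z ∈ Metric.ball (0 : ℂ) 1
      · rw [indicator_of_mem hz, abs_le]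
        constructor <;> linarith [nn (n + 1) z, nn 0 z, le1 (n + 1) z, le1 0 z]
      · rw [indicator_of_notMem hz]
        rw [mem_ball_zero_iff, not_lt] at hz
        rw [sD _ _ z hz]
    · filter_upwards [conv] with z hz
      have hz1 : Tendsto (fun n => h (n + 1) z) atTop (𝓝 (E.indicator (fun _ => (1 : ℝ)) z)) := by
        rcases hz with h2 | h2
        · have h3 : z ∉ E := by
            intro h4
            have := tendsto_nhds_unique h2 h4
            norm_num at this
          rw [indicator_of_notMem h3]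
          exact (tendsto_add_atTop_iff_nat 1).2 h2
        · rw [indicator_of_mem (show z ∈ E from h2)]
          exact (tendsto_add_atTop_iff_nat 1).2 h2
      exact (hz1.sub_const _).abs
  have hlim : ∫ z, |E.indicator (fun _ => (1 : ℝ)) z - h 0 z| ≤ 2 * K0 + 2 * ε :=
    le_of_tendsto' lim hD'
  have iF0 : Integrable (fun z => |h 0 z - F.indicator (fun _ => (1 : ℝ)) z|) := (i0.sub iF).abs
  have iE0 : Integrable (fun z => |E.indicator (fun _ => (1 : ℝ)) z - h 0 z|) := (iE.sub i0).abs
  have hK0' : K0 ≤ ∫ z, |h 0 z - F.indicator (fun _ => (1 : ℝ)) z| := by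
    apply integral_mono (iK 0) iF0
    intro z
    show h 0 z * (1 - h 0 z) ≤ |h 0 z - F.indicator (fun _ => (1 : ℝ)) z|
    have a1 := nn 0 z
    have a2 := le1 0 z
    by_cases hz : z ∈ F
    · rw [indicator_of_mem hz, abs_sub_comm, abs_of_nonneg (by linarith)]
      nlinarith
    · rw [indicator_of_notMem hz, sub_zero, abs_of_nonneg a1]
      nlinarith
  have mS : MeasurableSet (symmDiff E F) := mE.symmDiff hF
  have vS : volume (symmDiff E F) ≠ ⊤ := by
    refine ne_top_of_le_ne_top vb (measure_mono ?_)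
    intro z hz
    rcases hz with hz | hz
    · exact Eb hz.1
    · exact hFb hz.1
  have e1 : (volume (symmDiff E F)).toReal =
      ∫ z, |E.indicator (fun _ => (1 : ℝ)) z - F.indicator (fun _ => (1 : ℝ)) z| := by
    have : ∀ z, |E.indicator (fun _ => (1 : ℝ)) z - F.indicator (fun _ => (1 : ℝ)) z| =
        (symmDiff E F).indicator (fun _ => (1 : ℝ)) z := by
      intro z
      by_cases h1 : z ∈ E <;> by_cases h2 : z ∈ F
      · rw [indicator_of_mem h1, indicator_of_mem h2, indicator_of_notMem]
        · simp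
        · rw [Set.mem_symmDiff]; tauto
      · rw [indicator_of_mem h1, indicator_of_notMem h2, indicator_of_mem]
        · simp
        · rw [Set.mem_symmDiff]; tauto
      · rw [indicator_of_notMem h1, indicator_of_mem h2, indicator_of_mem]
        · simp
        · rw [Set.mem_symmDiff]; tauto
      · rw [indicator_of_notMem h1, indicator_of_notMem h2, indicator_of_notMem]
        · simp
        · rw [Set.mem_symmDiff]; tauto
    simp only [this]
    rw [integral_indicator mS]
    simp [Measure.real]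
  have e2 : (volume (symmDiff E F)).toReal ≤
      3 * (∫ z, |h 0 z - F.indicator (fun _ => (1 : ℝ)) z|) + 8 * ε := by
    have b3 : ∫ z, |E.indicator (fun _ => (1 : ℝ)) z - F.indicator (fun _ => (1 : ℝ)) z| ≤
        (∫ z, |E.indicator (fun _ => (1 : ℝ)) z - h 0 z|) +
          ∫ z, |h 0 z - F.indicator (fun _ => (1 : ℝ)) z| := by
      rw [← integral_add iE0 iF0]
      apply integral_mono (iE.sub iF).abs (iE0.add iF0)
      intro z
      exact abs_sub_le _ _ _
    rw [e1]
    linarith
  rw [← ENNReal.ofReal_toReal vS]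
  exact ENNReal.ofReal_le_ofReal e2

end Pool.Agent.Y253.CR
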