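import Pool.Agent.Y253.CR.Lev
import Pool.Agent.Helper546.CB.Fin2

/-! The theorem in the unit disc (helper253). -/

open MeasureTheory Real Set Filter Topology Croft

namespace Pool.Agent.Y253.CR
open Croft.F2

variable {C : Cells} {mf : ℝ → ℝ} {ε : ℝ} (c : Ch C mf ε)

theorem Ch.finb (l : ℝ × ℝ) (S : Set ℂ) (hS : S ⊆ Metric.ball 0 1) :
    volume {σ : ℝ | pt l.1 l.2 σ ∈ S} ≠ ⊤ := by
  have : {σ : ℝ | pt l.1 l.2 σ ∈ S} ⊆ Icc (-1) 1 := by
    intro σ hσ
    have h1 := hS hσ
    rw [mem_ball_zero_iff] at h1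
    by_contra hcon
    have h3 : 1 ≤ |σ| := by
      by_contra h2
      push Not at h2
      rw [abs_lt] at h2
      exact hcon ⟨h2.1.le, h2.2.le⟩
    have := Croft.one_le_norm_pt l.1 l.2 σ h3
    linarith
  exact ne_top_of_le_ne_top (by simp) (measure_mono this)

theorem Ch.Rpos (l : ℝ × ℝ) (hl : |l.2| < 1) :
    0 < (volume {σ : ℝ | pt l.1 l.2 σ ∈ c.E0}).toReal := by
  have h1 := (c.limit_rel l).1
  have h2 := (c.s 0).pos l hl
  have h3 : 0 < Rad (c.h 0) l := h2
  linarith

theorem Ch.E0_pos : 0 < volume c.E0 := by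
  rw [pos_iff_ne_zero]
  intro h0
  have hmp := (Complex.volume_preserving_equiv_real_prod).symm Complex.measurableEquivRealProd
  have h1 : volume (Complex.measurableEquivRealProd.symm ⁻¹' c.E0) = 0 := by
    rw [hmp.measure_preimage c.measE0.nullMeasurableSet]
    exact h0
  rw [Measure.volume_eq_prod, Measure.measure_prod_null
    (Complex.measurableEquivRealProd.symm.measurable c.measE0)] at h1
  have h2 : ∀ᵐ p : ℝ, volume {σ : ℝ | pt 0 p σ ∈ c.E0} = 0 := by
    filter_upwards [h1] with p hp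
    have e : {σ : ℝ | pt 0 p σ ∈ c.E0} =
        Prod.mk p ⁻¹' (Complex.measurableEquivRealProd.symm ⁻¹' c.E0) := by
      ext σ
      simp only [mem_setOf_eq, mem_preimage]
      have : pt 0 p σ = Complex.measurableEquivRealProd.symm (p, σ) := by
        unfold pt
        apply Complex.ext <;> simp [Complex.measurableEquivRealProd]
      rw [this]
    rw [e]
    exact hp
  have h3 : volume {p : ℝ | ¬ volume {σ : ℝ | pt 0 p σ ∈ c.E0} = 0} = 0 := h2
  have h4 : Ioo (-1 : ℝ) 1 ⊆ {p : ℝ | ¬ volume {σ : ℝ | pt 0 p σ ∈ c.E0} = 0} := by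
    intro p hp h5
    have := c.Rpos (0, p) (abs_lt.2 hp)
    simp only [h5] at this
    simp at this
  have h6 := measure_mono_null h4 h3
  rw [Real.volume_Ioo] at h6
  norm_num at h6

/-- no line section has a length in `L` -/
theorem Ch.missed (hm0 : ∀ θ p : ℝ, |p| ≤ 3 / 4 → 4 * c.u 0 ≤ Rad (c.h 0) (θ, p))
    (hup : ∀ θ p : ℝ, 3 / 4 ≤ |p| → |p| < 1 → Rad (c.h 0) (θ, p) ≤ √(1 - p ^ 2) / 50)
    (hsp : ∀ i : ℕ, ∀ θ p : ℝ, |p| < 1 → 19 / 20 * c.u i ≤ 2 * √(1 - p ^ 2) →
      4 * c.u (i + 1) ≤ Rad (c.h 0) (θ, p))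
    {t : ℝ} (ht : t ∈ c.L) (θ p : ℝ) :
    volume {σ : ℝ | pt θ p σ ∈ c.E0 ∪ c.N} ≠ ENNReal.ofReal t := by
  intro heq
  obtain ⟨k, hk⟩ := c.cluster ht
  rw [abs_le] at hk
  have huk := c.upos k
  have ht0 : 0 < t := by linarith
  by_cases hp : |p| < 1
  · set R := (volume {σ : ℝ | pt θ p σ ∈ c.E0}).toReal with hR
    have hRp : 0 < R := c.Rpos (θ, p) hp
    have hRvol : volume {σ : ℝ | pt θ p σ ∈ c.E0} = ENNReal.ofReal R := by
      rw [hR, ENNReal.ofReal_toReal (Ch.finb (θ, p) _ c.E0_sub)]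
    have hrel := c.limit_rel (θ, p)
    by_cases hA : R ∈ c.L
    · obtain ⟨j, hj⟩ := c.cluster hA
      rw [abs_le] at hj
      have huj := c.upos j
      obtain ⟨c1, hc1, hroot, hinf⟩ := C.cover θ p hp
      have h1 := c.served_line θ p c1 hA hinf
      have hsq : 0 < √(1 - p ^ 2) := by
        apply Real.sqrt_pos.2
        have := abs_lt.1 hp
        nlinarith
      have hrel1 : 1 / 2 * Rad (c.h 0) (θ, p) ≤ R := hrel.1
      have hrel2 : R ≤ 2 * Rad (c.h 0) (θ, p) := hrel.2
      have hp34 : 3 / 4 ≤ |p| := by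
        by_contra hcon
        push Not at hcon
        have a1 := hm0 θ p hcon.le
        have a2 : c.u j ≤ c.u 0 := c.u_anti.antitone (Nat.zero_le _)
        linarith
      have hup' := hup θ p hp34 hp
      have h2 : 5 / 4 * R ≤ c1 := by linarith
      have h3 : ENNReal.ofReal c1 ≤ ENNReal.ofReal t := by
        rw [← heq]
        exact h1.trans (measure_mono fun σ hσ => Or.inr hσ)
      rw [ENNReal.ofReal_le_ofReal_iff ht0.le] at h3
      have h4 : c.u j < c.u k := by linarith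
      have h5 : k < j := c.u_anti.lt_iff_gt.1 h4
      obtain ⟨i, rfl⟩ : ∃ i, j = i + 1 := ⟨j - 1, by omega⟩
      have h6 : c.u i ≤ c.u k := c.u_anti.antitone (by omega)
      have h7 : 2 * √(1 - p ^ 2) < 19 / 20 * c.u i := by
        by_contra hcon
        push Not at hcon
        have h8 := hsp i θ p hp hcon
        linarith
      have h8 : ENNReal.ofReal t ≤ ENNReal.ofReal (2 * √(1 - p ^ 2)) := by
        rw [← heq]
        refine (measure_mono fun σ hσ => ?_).trans (section_ball θ p hp)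
        exact union_subset c.E0_sub c.N_sub hσ
      rw [ENNReal.ofReal_le_ofReal_iff (by positivity)] at h8
      linarith
    · have hnull := c.null_line (θ, p) hRp hA
      have h1 : volume {σ : ℝ | pt θ p σ ∈ c.E0 ∪ c.N} = ENNReal.ofReal R := by
        rw [← hRvol]
        apply le_antisymm
        · calc volume {σ : ℝ | pt θ p σ ∈ c.E0 ∪ c.N}
              ≤ volume {σ : ℝ | pt θ p σ ∈ c.E0} + volume {σ : ℝ | pt θ p σ ∈ c.N} :=
                measure_union_le _ _
            _ = volume {σ : ℝ | pt θ p σ ∈ c.E0} := by rw [hnull, add_zero]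
        · exact measure_mono fun σ hσ => Or.inl hσ
      rw [h1, ENNReal.ofReal_eq_ofReal_iff hRp.le ht0.le] at heq
      rw [heq] at hA
      exact hA ht
  · push Not at hp
    have : {σ : ℝ | pt θ p σ ∈ c.E0 ∪ c.N} = ∅ := by
      rw [eq_empty_iff_forall_notMem]
      intro σ hσ
      have h1 := union_subset c.E0_sub c.N_sub hσ
      rw [mem_ball_zero_iff] at h1
      have h2 := AI.one_le_norm_pt' θ p σ hp
      linarith
    rw [this, measure_empty] at heq
    have h3 := ENNReal.ofReal_eq_zero.1 heq.symm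
    linarith

theorem disc (hB : S_BASE) (hL : S_LEV) (hA : S_AREA) (hM : S_MULTI) (hC : S_CLOSE) (hI : S_INJ)
    (hk : Kill2Stmt) (hai : AI2Stmt) : S_DISC := by
  classical
  intro F hF hFb ε hε
  obtain ⟨h0, hn, hpos, hclose, hup, hlow⟩ := hB F hF hFb (ε / 6) (by positivity)
  choose! m hm using hlow
  obtain ⟨C⟩ := exists_cells hk
  obtain ⟨c, hc1, hc2⟩ := exists_ch hL hA hM hai C (fun x => m (19 / 20 * x) / 4)
    (fun x hx => by
      have := (hm (19 / 20 * x) (by positivity)).1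
      positivity) (min 1 (ε / 16)) (by positivity) (min_le_left _ _) h0 hn hpos (m 1 / 4)
    (by have := (hm 1 one_pos).1; positivity)
  have hc1' : c.h 0 = h0 := hc1
  have hc2' : c.u 0 = m 1 / 4 := hc2
  have hmiss : ∀ t ∈ c.L, ∀ θ p : ℝ,
      volume {σ : ℝ | pt θ p σ ∈ c.E0 ∪ c.N} ≠ ENNReal.ofReal t := by
    intro t ht θ p
    refine c.missed ?_ ?_ ?_ ht θ p
    · intro θ p hp
      rw [hc1', hc2']
      have h1 : (1 : ℝ) ≤ 2 * √(1 - p ^ 2) := by
        have h2 : (1 / 2 : ℝ) ≤ √(1 - p ^ 2) := by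
          apply Real.le_sqrt_of_sq_le
          have := abs_le.1 hp
          nlinarith
        linarith
      have := (hm 1 one_pos).2 θ p (by linarith) h1
      linarith
    · intro θ p h1 h2
      rw [hc1']
      exact hup θ p h1 h2
    · intro i θ p h1 h2
      rw [hc1']
      have h3 := (hm (19 / 20 * c.u i) (by have := c.upos i; positivity)).2 θ p h1 h2
      have h4 : c.u (i + 1) ≤ m (19 / 20 * c.u i) / 4 := (c.stage i).usp
      linarith
  refine ⟨c.E0 ∪ c.N, c.measE0.union c.measN, union_subset c.E0_sub c.N_sub,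
    c.E0_pos.trans_le (measure_mono subset_union_left), ?_, ?_⟩
  · have h1 : symmDiff (c.E0 ∪ c.N) F ⊆ symmDiff c.E0 F ∪ c.N := by
      intro z hz
      rcases hz with ⟨h2, h3⟩ | ⟨h2, h3⟩
      · rcases h2 with h2 | h2
        · exact Or.inl (Or.inl ⟨h2, h3⟩)
        · exact Or.inr h2
      · exact Or.inl (Or.inr ⟨h2, fun h4 => h3 (Or.inl h4)⟩)
    have h2 := hC c.h c.nice (min 1 (ε / 16)) (by positivity) (fun n l => (c.stage n).dif l)
      (fun n l => (c.stage n).J l) F hF (hFb.trans (Metric.ball_subset_ball (by norm_num)))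
    calc volume (symmDiff (c.E0 ∪ c.N) F) ≤ volume (symmDiff c.E0 F ∪ c.N) := measure_mono h1
      _ ≤ volume (symmDiff c.E0 F) + volume c.N := measure_union_le _ _
      _ = volume (symmDiff c.E0 F) := by rw [c.N_null, add_zero]
      _ ≤ _ := h2
      _ ≤ ENNReal.ofReal ε := by
        apply ENNReal.ofReal_le_ofReal
        rw [hc1']
        have h3 : min 1 (ε / 16) ≤ ε / 16 := min_le_right _ _
        linarith
  · intro t₀ ht₀
    obtain ⟨k, hk1⟩ := (c.u_tendsto.eventually_lt_const (show (0:ℝ) < t₀ / 2 by positivity)).exists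
    obtain ⟨f, hf1, hf2⟩ := hI (fun n => (c.S n : Set ℝ)) c.r c.rpos c.rle
      (fun n s hs => (c.stage n).child s hs) k (c.u k) (c.s k).umem
    have hfL : ∀ b, f b ∈ c.L := fun b => ⟨k, (hf2 b).2⟩
    have hfr : ∀ b, 0 < f b ∧ f b < t₀ := by
      intro b
      have h1 := abs_le.1 (hf2 b).1
      have h2 := c.ru k
      have h3 := c.upos k
      constructor <;> linarith
    let g : (ℕ → Bool) → {t : ℝ | 0 < t ∧ t < t₀ ∧
      ∀ θ p : ℝ, volume {σ : ℝ | pt θ p σ ∈ c.E0 ∪ c.N} ≠ ENNReal.ofReal t} :=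
      fun b => ⟨f b, (hfr b).1, (hfr b).2, hmiss _ (hfL b)⟩
    have hg : Function.Injective g := fun a b hab => hf1 (congrArg Subtype.val hab)
    have h1 := Cardinal.mk_le_of_injective hg
    have h2 : Cardinal.mk (ℕ → Bool) = Cardinal.continuum := by simp
    rw [← h2]
    exact h1

end Pool.Agent.Y253.CR
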