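import Mathlib
import Pool.Agent.Y253.CR.Stm
import Pool.Agent.Helper991.Croft.Final

/-! Job CR-FIN (helper339 for helper253): from the unit disc to the Euclidean plane. -/

open MeasureTheory Real Set Filter Topology Croft

namespace Pool.Agent.Y253.CR
namespace FinAux

/-- the linear isometry between `ℂ` and the Euclidean plane -/
noncomputable def phi : ℂ ≃ₗᵢ[ℝ] EuclideanSpace ℝ (Fin 2) := Complex.orthonormalBasisOneI.repr

/-- scaling by `c⁻¹` after the isometry -/
noncomputable def psi (c : ℝ) (x : EuclideanSpace ℝ (Fin 2)) : ℂ := c⁻¹ • phi.symm x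

lemma psi_cont (c : ℝ) : Continuous (psi c) := by
  unfold psi
  exact (phi.symm.continuous).const_smul c⁻¹

lemma norm_psi {c : ℝ} (hc : 0 < c) (x : EuclideanSpace ℝ (Fin 2)) : ‖psi c x‖ = c⁻¹ * ‖x‖ := by
  unfold psi
  rw [norm_smul, phi.symm.norm_map, Real.norm_eq_abs, abs_of_pos (inv_pos.2 hc)]

lemma vol_psi {c : ℝ} (hc : 0 < c) (S : Set ℂ) (hS : MeasurableSet S) :
    volume (psi c ⁻¹' S) = ENNReal.ofReal (c ^ 2) * volume S := by
  have hφ : MeasurePreserving phi.symm volume volume := phi.symm.measurePreserving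
  have h1 : psi c ⁻¹' S = phi.symm ⁻¹' ((fun z : ℂ => c⁻¹ • z) ⁻¹' S) := rfl
  have h2 : MeasurableSet ((fun z : ℂ => c⁻¹ • z) ⁻¹' S) :=
    (measurable_const_smul c⁻¹) hS
  rw [h1, hφ.measure_preimage h2.nullMeasurableSet,
    Measure.addHaar_preimage_smul volume (inv_ne_zero hc.ne') S, Complex.finrank_real_complex]
  congr 2
  rw [inv_pow, inv_inv, abs_of_pos (by positivity)]

lemma cut (F : Set (EuclideanSpace ℝ (Fin 2))) (hF : MeasurableSet F) (hfin : volume F ≠ ⊤)
    (ε : ENNReal) (hε : 0 < ε) : ∃ ρ : ℝ, 1 ≤ ρ ∧ volume (F \ Metric.ball 0 ρ) < ε := by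
  have hmeas : ∀ n : ℕ, NullMeasurableSet (F \ Metric.ball 0 ((n : ℝ) + 1)) volume := fun n =>
    (hF.diff measurableSet_ball).nullMeasurableSet
  have hanti : Antitone fun n : ℕ => F \ Metric.ball 0 ((n : ℝ) + 1) := by
    intro m n hmn
    refine sdiff_subset_sdiff_right (Metric.ball_subset_ball ?_)
    have : (m : ℝ) ≤ n := by exact_mod_cast hmn
    linarith
  have h1 := tendsto_measure_iInter_atTop hmeas hanti
    ⟨0, ne_top_of_le_ne_top hfin (measure_mono sdiff_subset)⟩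
  have h2 : (⋂ n : ℕ, F \ Metric.ball 0 ((n : ℝ) + 1)) = ∅ := by
    rw [eq_empty_iff_forall_notMem]
    intro x hx
    obtain ⟨n, hn⟩ := exists_nat_gt ‖x‖
    have h3 := (mem_iInter.1 hx n).2
    apply h3
    rw [mem_ball_zero_iff]
    linarith
  rw [h2, measure_empty] at h1
  obtain ⟨n, hn⟩ := ((tendsto_order.1 h1).2 ε hε).exists
  exact ⟨n + 1, by have : (0 : ℝ) ≤ n := Nat.cast_nonneg n; linarith, hn⟩

lemma line {c : ℝ} (hc : 0 < c) (E0 : Set ℂ) (a v : EuclideanSpace ℝ (Fin 2)) (hv : ‖v‖ = 1) :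
    ∃ θ p : ℝ, volume {s : ℝ | a + s • v ∈ psi c ⁻¹' E0} =
      ENNReal.ofReal c * volume {σ : ℝ | pt θ p σ ∈ E0} := by
  obtain ⟨θ, p, σ0, hpt⟩ := FF.exists_pt (c⁻¹ • phi.symm a) (phi.symm v)
    (by rw [phi.symm.norm_map]; exact hv)
  refine ⟨θ, p, ?_⟩
  have hpre : {s : ℝ | a + s • v ∈ psi c ⁻¹' E0} =
      (fun s => c⁻¹ * s) ⁻¹' ((fun s => σ0 + s) ⁻¹' {σ : ℝ | pt θ p σ ∈ E0}) := by
    ext s
    simp only [mem_ofPred_eq, mem_preimage]
    rw [← hpt (c⁻¹ * s)]
    unfold psi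
    rw [map_add, map_smul, smul_add]
    simp [mul_assoc]
  rw [hpre, Real.volume_preimage_mul_left (inv_ne_zero hc.ne'), measure_preimage_add, inv_inv,
    abs_of_pos hc]

end FinAux

open FinAux

theorem fin (h : S_DISC) : S_FINAL := by
  intro F hF hfin ε hε
  obtain ⟨F1, hFF1, hF1, hae⟩ := hF.exists_measurable_superset_ae_eq
  have hfin1 : volume F1 ≠ ⊤ := by rw [measure_congr hae]; exact hfin.ne
  obtain ⟨ρ, hρ1, hρ⟩ := cut F1 hF1 hfin1 (ENNReal.ofReal (ε / 2)) (by simpa using hε)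
  set c : ℝ := 2 * ρ with hcdef
  have hc : 0 < c := by rw [hcdef]; linarith
  set G : Set ℂ := {z | phi (c • z) ∈ F1 ∧ ‖z‖ < 1 / 2} with hG
  have hGm : MeasurableSet G := by
    have h1 : Continuous fun z : ℂ => phi (c • z) := phi.continuous.comp (continuous_const_smul c)
    have h2 : MeasurableSet {z : ℂ | phi (c • z) ∈ F1} := h1.measurable hF1
    have h3 : MeasurableSet {z : ℂ | ‖z‖ < 1 / 2} :=
      (isOpen_lt continuous_norm continuous_const).measurableSet
    exact h2.inter h3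
  have hGb : G ⊆ Metric.ball 0 (1 / 2) := by
    intro z hz
    rw [mem_ball_zero_iff]
    exact hz.2
  obtain ⟨E0, hE0, hE0b, hE0p, hE0d, hE0l⟩ := h G hGm hGb (ε / (4 * c ^ 2)) (by positivity)
  have hEsub : psi c ⁻¹' E0 ⊆ Metric.closedBall 0 c := by
    intro x hx
    have h1 := hE0b hx
    rw [mem_ball_zero_iff, norm_psi hc] at h1
    rw [mem_closedBall_zero_iff]
    have h2 : ‖x‖ = c * (c⁻¹ * ‖x‖) := by field_simp
    nlinarith
  have hpre : ∀ x, psi c x ∈ G ↔ x ∈ F1 ∩ Metric.ball 0 ρ := by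
    intro x
    have h1 : phi (c • psi c x) = x := by
      unfold psi
      rw [smul_smul, mul_inv_cancel₀ hc.ne', one_smul, phi.apply_symm_apply]
    have h2 : ‖psi c x‖ < 1 / 2 ↔ ‖x‖ < ρ := by
      rw [norm_psi hc, inv_mul_lt_iff₀ hc, hcdef]
      constructor <;> intro h <;> linarith
    constructor
    · rintro ⟨a, b⟩
      rw [h1] at a
      exact ⟨a, by rw [mem_ball_zero_iff]; exact h2.1 b⟩
    · rintro ⟨a, b⟩
      rw [mem_ball_zero_iff] at b
      exact ⟨by rw [h1]; exact a, h2.2 b⟩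
  have hsd : symmDiff (psi c ⁻¹' E0) (F1 ∩ Metric.ball 0 ρ) = psi c ⁻¹' (symmDiff E0 G) := by
    have h1 : F1 ∩ Metric.ball 0 ρ = psi c ⁻¹' G := by
      ext x
      exact (hpre x).symm
    rw [h1]
    rfl
  have hv1 : volume (symmDiff (psi c ⁻¹' E0) (F1 ∩ Metric.ball 0 ρ)) ≤ ENNReal.ofReal (ε / 4) := by
    rw [hsd, vol_psi hc _ (hE0.symmDiff hGm)]
    calc ENNReal.ofReal (c ^ 2) * volume (symmDiff E0 G)
        ≤ ENNReal.ofReal (c ^ 2) * ENNReal.ofReal (ε / (4 * c ^ 2)) := by gcongr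
      _ = ENNReal.ofReal (ε / 4) := by
          rw [← ENNReal.ofReal_mul (by positivity)]
          congr 1
          field_simp
  have hv2 : volume (symmDiff (F1 ∩ Metric.ball 0 ρ) F1) < ENNReal.ofReal (ε / 2) := by
    refine lt_of_le_of_lt (measure_mono ?_) hρ
    rintro x (⟨hx1, hx2⟩ | ⟨hx1, hx2⟩)
    · exact absurd hx1.1 hx2
    · exact ⟨hx1, fun h => hx2 ⟨hx1, h⟩⟩
  have hv3 : volume (symmDiff F1 F) = 0 := measure_symmDiff_eq_zero_iff.2 hae
  refine ⟨psi c ⁻¹' E0, (psi_cont c).measurable hE0, Metric.isBounded_closedBall.subset hEsub, ?_,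
    (measure_mono hEsub).trans_lt (isCompact_closedBall _ _).measure_lt_top, ?_, ?_⟩
  · rw [vol_psi hc _ hE0]
    exact ENNReal.mul_pos (by simpa using by positivity) hE0p.ne'
  · calc volume (symmDiff (psi c ⁻¹' E0) F)
        ≤ volume (symmDiff (psi c ⁻¹' E0) (F1 ∩ Metric.ball 0 ρ)) +
            volume (symmDiff (F1 ∩ Metric.ball 0 ρ) F) := measure_symmDiff_le _ _ _
      _ ≤ volume (symmDiff (psi c ⁻¹' E0) (F1 ∩ Metric.ball 0 ρ)) +
            (volume (symmDiff (F1 ∩ Metric.ball 0 ρ) F1) + volume (symmDiff F1 F)) := by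
          gcongr
          exact measure_symmDiff_le _ _ _
      _ ≤ ENNReal.ofReal (ε / 4) + (ENNReal.ofReal (ε / 2) + 0) := by
          gcongr
          exact hv3.le
      _ = ENNReal.ofReal (ε / 4 + ε / 2) := by
          rw [add_zero, ENNReal.ofReal_add (by positivity) (by positivity)]
      _ < ENNReal.ofReal ε := by
          rw [ENNReal.ofReal_lt_ofReal_iff hε]
          linarith
  · intro t₀ ht₀
    apply le_antisymm
    · exact (Cardinal.mk_set_le _).trans Cardinal.mk_real.le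
    · refine (hE0l (t₀ / c) (by positivity)).trans ?_
      refine Cardinal.mk_le_of_injective (f := fun t => ⟨c * t.1, ?_⟩) ?_
      · obtain ⟨t, ht0, ht1, ht⟩ := t
        refine ⟨by positivity, ?_, ?_⟩
        · rw [lt_div_iff₀ hc] at ht1
          linarith
        · intro a v hv heq
          obtain ⟨θ, p, hl⟩ := line hc E0 a v hv
          rw [hl, ENNReal.ofReal_mul hc.le] at heq
          apply ht θ p
          exact (ENNReal.mul_right_inj (by simpa using hc) ENNReal.ofReal_ne_top).1 heq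
      · intro s t hst
        have h1 : c * s.1 = c * t.1 := congrArg Subtype.val hst
        exact Subtype.ext (mul_left_cancel₀ hc.ne' h1)

end Pool.Agent.Y253.CR
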