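import Pool.Agent.Y253.CR.Stm

/-! # A branching family of centres gives continuum many limits (S_INJ) -/

set_option autoImplicit false

open MeasureTheory Real Set Filter Topology Croft

namespace Pool.Agent.Y253.CR

namespace Inj

/-- the branch of `b` -/
noncomputable def xx (P : ℕ → ℝ → ℝ × ℝ) (k : ℕ) (s : ℝ) (b : ℕ → Bool) : ℕ → ℝ
  | 0 => s
  | j + 1 => if b j then (P (k + j) (xx P k s b j)).1 else (P (k + j) (xx P k s b j)).2

end Inj

open Inj in
theorem inj : S_INJ := by
  intro S r hr hr8 hS k s hs
  have H : ∀ n : ℕ, ∀ t : ℝ, ∃ p : ℝ × ℝ, t ∈ S n → p.1 ∈ S (n + 1) ∧ p.2 ∈ S (n + 1) ∧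
      |p.1 - t| ≤ r n / 2 ∧ |p.2 - t| ≤ r n / 2 ∧ r n / 2 ≤ |p.1 - p.2| := by
    intro n t
    by_cases ht : t ∈ S n
    · obtain ⟨s', h1, s'', h2, h3, h4, h5⟩ := hS n t ht
      exact ⟨(s', s''), fun _ => ⟨h1, h2, h3, h4, h5⟩⟩
    · exact ⟨(0, 0), fun h => absurd h ht⟩
  choose P hP using H
  have hmem : ∀ b j, xx P k s b j ∈ S (k + j) := by
    intro b j
    induction j with
    | zero => exact hs
    | succ j ih =>
      have h := hP (k + j) _ ih
      rw [xx]
      split_ifs
      · exact h.1
      · exact h.2.1
  have hstep : ∀ b j, |xx P k s b (j + 1) - xx P k s b j| ≤ r (k + j) / 2 := by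
    intro b j
    have h := hP (k + j) _ (hmem b j)
    rw [xx]
    split_ifs
    · exact h.2.2.1
    · exact h.2.2.2.1
  have hnest : ∀ b j m, |xx P k s b (j + m) - xx P k s b j| + r (k + (j + m)) ≤ r (k + j) := by
    intro b j m
    induction m with
    | zero => simp
    | succ m ih =>
      have h1 := hstep b (j + m)
      have h2 := hr8 (k + (j + m))
      have h3 := hr (k + (j + m))
      have h4 := abs_sub_le (xx P k s b (j + m + 1)) (xx P k s b (j + m)) (xx P k s b j)
      have h5 : k + (j + (m + 1)) = k + (j + m) + 1 := by ring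
      rw [h5, ← add_assoc j m 1]
      linarith
  have hgeo : ∀ j, r (k + j) ≤ r k * (1 / 8) ^ j := by
    intro j
    induction j with
    | zero => simp
    | succ j ih =>
      have h2 := hr8 (k + j)
      rw [← add_assoc, pow_succ]
      linarith
  have hlim : ∀ b, ∃ y, Tendsto (xx P k s b) atTop (𝓝 y) := by
    intro b
    refine cauchySeq_tendsto_of_complete (cauchySeq_of_le_geometric (1 / 8) (r k / 2)
      (by norm_num) (fun n => ?_))
    rw [dist_comm, Real.dist_eq]
    have h1 := hstep b n
    have h2 := hgeo n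
    linarith
  choose f hf using hlim
  have hclose : ∀ b j, |f b - xx P k s b j| ≤ r (k + j) := by
    intro b j
    have h1 : Tendsto (fun m => |xx P k s b m - xx P k s b j|) atTop
        (𝓝 |f b - xx P k s b j|) := ((hf b).sub_const _).abs
    refine le_of_tendsto h1 ?_
    filter_upwards [eventually_ge_atTop j] with m hm
    obtain ⟨i, rfl⟩ := Nat.exists_eq_add_of_le hm
    have := hnest b j i
    have h3 := hr (k + (j + i))
    linarith
  refine ⟨f, ?_, fun b => ⟨?_, fun n hn => ?_⟩⟩
  · intro b b' hbb
    by_contra hne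
    have hex : ∃ j, b j ≠ b' j := by
      by_contra hc
      push Not at hc
      exact hne (funext hc)
    classical
    obtain ⟨j, hj, hmin⟩ : ∃ j, b j ≠ b' j ∧ ∀ i < j, b i = b' i :=
      ⟨Nat.find hex, Nat.find_spec hex, fun i hi => not_not.mp (Nat.find_min hex hi)⟩
    have heq : ∀ i ≤ j, xx P k s b i = xx P k s b' i := by
      intro i
      induction i with
      | zero => intro _; rfl
      | succ i ih =>
        intro hi
        rw [xx, xx, ih (by omega), hmin i (by omega)]
    have h1 := hP (k + j) _ (hmem b j)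
    have h2 : r (k + j) / 2 ≤ |xx P k s b (j + 1) - xx P k s b' (j + 1)| := by
      rw [xx, xx, ← heq j le_rfl]
      cases hb : b j
      · have hb' : b' j = true := by
          rw [hb] at hj
          cases h : b' j
          · exact absurd h.symm hj
          · rfl
        rw [hb', if_neg (by simp), if_pos rfl, abs_sub_comm]
        exact h1.2.2.2.2
      · have hb' : b' j = false := by
          rw [hb] at hj
          cases h : b' j
          · rfl
          · exact absurd h.symm hj
        rw [hb', if_pos rfl, if_neg (by simp)]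
        exact h1.2.2.2.2
    have h3 := hclose b (j + 1)
    have h4 := hclose b' (j + 1)
    have h5 := hr8 (k + j)
    have h6 := hr (k + j)
    rw [← add_assoc] at h3 h4
    rw [← hbb] at h4
    have h7 := abs_sub_le (xx P k s b (j + 1)) (f b) (xx P k s b' (j + 1))
    rw [abs_sub_comm] at h3
    linarith
  · exact hclose b 0
  · obtain ⟨j, rfl⟩ := Nat.exists_eq_add_of_le hn
    exact ⟨xx P k s b j, hmem b j, hclose b j⟩

end Pool.Agent.Y253.CR
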