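import Pool.Agent.Y253.CR.Stm
import Pool.Agent.Helper546.CB.Asm2

/-! CR-MULTI: killing finitely many levels at once (helper436) -/

set_option autoImplicit false

open MeasureTheory Real Set Filter Topology Croft

namespace Pool.Agent.Y253.CR

namespace Multi

/-- the conclusion for one set of levels -/
def Concl (x : ℝ × ℝ) (e c0 : ℝ) (S : Finset ℝ) (h : ℂ → ℝ) (β ε : ℝ) : Prop :=
  ∃ h' : ℂ → ℝ, ∃ β' : ℝ, ∃ U : Set ℂ, Nice h' ∧ (∀ l : ℝ × ℝ, |l.2| < 1 → 0 < Rad h' l) ∧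
      0 < β' ∧ MeasurableSet U ∧ U ⊆ Metric.ball 0 1 ∧ β' ≤ β / 2 ∧
      (∀ l, |Rad h' l - Rad h l| ≤ β / 2) ∧ (∀ l, |Rad h' l - Rad h l| ≤ ε * Rad h l) ∧
      (∀ l, Rad (fun z => |h' z - h z|) l ≤ 2 * Rad (fun z => h z * (1 - h z)) l + ε) ∧
      (∀ l, Rad (fun z => h' z * (1 - h' z)) l ≤ ε) ∧
      (∀ s ∈ S, ∀ θ p, |θ - x.1| ≤ e → |p - x.2| ≤ e → |Rad h' (θ, p) - s| ≤ β' →
        ENNReal.ofReal c0 ≤ volume {σ : ℝ | pt θ p σ ∈ U}) ∧
      (∀ l : ℝ × ℝ, (∀ s ∈ S, ε ≤ |Rad h l - s|) →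
        volume {σ : ℝ | pt l.1 l.2 σ ∈ U} ≤ ENNReal.ofReal ε)

lemma rad_abs_tri {h h1 h2 : ℂ → ℝ} (hh : Nice h) (n1 : Nice h1) (n2 : Nice h2) (l : ℝ × ℝ) :
    Rad (fun z => |h2 z - h z|) l ≤
      Rad (fun z => |h2 z - h1 z|) l + Rad (fun z => |h1 z - h z|) l := by
  have c1 := n1.c1.continuous
  have c2 := n2.c1.continuous
  have ch := hh.c1.continuous
  rw [← F2.rad_add (G := fun z => |h2 z - h1 z|) (H := fun z => |h1 z - h z|)
    (c2.sub c1).abs (fun z hz => by simp [n2.supp z hz, n1.supp z hz])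
    (c1.sub ch).abs (fun z hz => by simp [n1.supp z hz, hh.supp z hz])]
  apply F2.rad_mono (G := fun z => |h2 z - h z|) (H := fun z => |h2 z - h1 z| + |h1 z - h z|)
    (c2.sub ch).abs (fun z hz => by simp [n2.supp z hz, hh.supp z hz])
    ((c2.sub c1).abs.add (c1.sub ch).abs)
    (fun z hz => by simp [n1.supp z hz, hh.supp z hz, n2.supp z hz])
  intro z
  show |h2 z - h z| ≤ |h2 z - h1 z| + |h1 z - h z|
  exact abs_sub_le _ _ _

lemma main (hai : AI2Stmt) {x : ℝ × ℝ} {e c0 : ℝ} (hc : CellKill2 x e c0) (S : Finset ℝ) :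
    (∀ s ∈ S, 0 < s) → ∀ h : ℂ → ℝ, Nice h → (∀ l : ℝ × ℝ, |l.2| < 1 → 0 < Rad h l) →
    ∀ β ε : ℝ, 0 < β → 0 < ε → ε ≤ 1 → Concl x e c0 S h β ε := by
  classical
  induction S using Finset.induction_on with
  | empty =>
    intro _ h hh hpos β ε hβ hε _
    obtain ⟨h', β', U, a1, a2, a3, a4, a5, a6, a7, a8, a9, a10, a11, a12⟩ :=
      F2.step hc hai h hh hpos β 1 ε hβ one_pos hε
    refine ⟨h', β', ∅, a1, a2, a3, MeasurableSet.empty, empty_subset _, a6, a7, a8, a9, a10, ?_, ?_⟩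
    · intro s hs
      exact absurd hs (Finset.notMem_empty s)
    · intro l _
      simp
  | insert t S ht ih =>
    intro hS h hh hpos β ε hβ hε hε1
    have hε8 : 0 < ε / 8 := by positivity
    obtain ⟨h1, β1, U1, a1, a2, a3, a4, a5, a6, a7, a8, a9, a10, a11, a12⟩ :=
      ih (fun s hs => hS s (Finset.mem_insert_of_mem hs)) h hh hpos (β / 2) (ε / 8)
        (by positivity) hε8 (by linarith)
    obtain ⟨h2, β2, U2, b1, b2, b3, b4, b5, b6, b7, b8, b9, b10, b11, b12⟩ :=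
      F2.step hc hai h1 a1 a2 β1 t (ε / 8) a3 (hS t (Finset.mem_insert_self t S)) hε8
    have hR0 : ∀ l, 0 ≤ Rad h l := fun l => F2.rad_nonneg hh.nonneg l
    have hR2 : ∀ l, Rad h l ≤ 2 := by
      intro l
      have := F2.rad_le hh.c1.continuous hh.supp 1 zero_le_one hh.le_one l
      linarith
    refine ⟨h2, β2, U1 ∪ U2, b1, b2, b3, a4.union b4, union_subset a5 b5, by linarith, ?_, ?_, ?_,
      ?_, ?_, ?_⟩
    · intro l
      have c1 := abs_sub_le (Rad h2 l) (Rad h1 l) (Rad h l)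
      have c2 := a7 l
      have c3 := b7 l
      linarith
    · intro l
      have c1 := abs_sub_le (Rad h2 l) (Rad h1 l) (Rad h l)
      have c2 := a8 l
      have c3 := b8 l
      have c4 := (abs_le.1 c2).2
      have c5 := hR0 l
      have c6 : ε / 8 * Rad h l ≤ 1 * Rad h l := mul_le_mul_of_nonneg_right (by linarith) c5
      have c7 : ε / 8 * Rad h1 l ≤ ε / 8 * (2 * Rad h l) :=
        mul_le_mul_of_nonneg_left (by linarith) hε8.le
      have c8 : 0 ≤ ε * Rad h l := mul_nonneg hε.le c5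
      linarith
    · intro l
      have c1 := rad_abs_tri hh a1 b1 l
      have c2 := a9 l
      have c3 := b9 l
      have c4 := a10 l
      linarith
    · intro l
      have := b10 l
      linarith
    · intro s hs θ p hθ hp hr
      rcases Finset.mem_insert.1 hs with rfl | hs'
      · refine (b11 θ p hθ hp hr).trans (measure_mono ?_)
        intro σ hσ
        exact Or.inr hσ
      · have c1 := abs_sub_le (Rad h1 (θ, p)) (Rad h2 (θ, p)) s
        have c2 := b7 (θ, p)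
        rw [abs_sub_comm] at c2
        refine (a11 s hs' θ p hθ hp (by linarith)).trans (measure_mono ?_)
        intro σ hσ
        exact Or.inl hσ
    · intro l hl
      have c1 := a12 l (fun s hs => by
        have := hl s (Finset.mem_insert_of_mem hs)
        linarith)
      have c2 := hl t (Finset.mem_insert_self t S)
      have c3 := a8 l
      have c4 : ε / 8 * Rad h l ≤ ε / 8 * 2 := mul_le_mul_of_nonneg_left (hR2 l) hε8.le
      have c5 := abs_sub_le (Rad h l) (Rad h1 l) t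
      rw [abs_sub_comm (Rad h l) (Rad h1 l)] at c5
      have c6 := b12 l (by linarith)
      have c7 : {σ : ℝ | pt l.1 l.2 σ ∈ U1 ∪ U2} =
          {σ : ℝ | pt l.1 l.2 σ ∈ U1} ∪ {σ : ℝ | pt l.1 l.2 σ ∈ U2} := rfl
      rw [c7]
      calc volume ({σ : ℝ | pt l.1 l.2 σ ∈ U1} ∪ {σ : ℝ | pt l.1 l.2 σ ∈ U2})
          ≤ volume {σ : ℝ | pt l.1 l.2 σ ∈ U1} + volume {σ : ℝ | pt l.1 l.2 σ ∈ U2} :=
            measure_union_le _ _
        _ ≤ ENNReal.ofReal (ε / 8) + ENNReal.ofReal (ε / 8) := add_le_add c1 c6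
        _ = ENNReal.ofReal (ε / 8 + ε / 8) := (ENNReal.ofReal_add hε8.le hε8.le).symm
        _ ≤ ENNReal.ofReal ε := ENNReal.ofReal_le_ofReal (by linarith)

end Multi

theorem multi : S_MULTI := by
  intro hai x e c0 hc S hS h hh hpos β ε hβ hε
  obtain ⟨h', β', U, a1, a2, a3, a4, a5, a6, a7, a8, a9, a10, a11, a12⟩ :=
    Multi.main hai hc S hS h hh hpos β (min ε 1) hβ (lt_min hε one_pos) (min_le_right _ _)
  have hm : min ε 1 ≤ ε := min_le_left _ _
  refine ⟨h', β', U, a1, a2, a3, a4, a5, a6, a7, ?_, ?_, ?_, a11, ?_⟩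
  · intro l
    exact (a8 l).trans (mul_le_mul_of_nonneg_right hm (F2.rad_nonneg hh.nonneg l))
  · intro l
    have := a9 l
    linarith
  · intro l
    exact (a10 l).trans hm
  · intro l hl
    exact (a12 l (fun s hs => hm.trans (hl s hs))).trans (ENNReal.ofReal_le_ofReal hm)

end Pool.Agent.Y253.CR
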