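import Pool.Agent.Y253.CR.Stm
import Pool.Agent.Helper546.CB.Asm2

/-! The adaptive construction (helper253), from the assembly of helper546 and helper991. -/

open MeasureTheory Real Set Filter Topology Croft

namespace Pool.Agent.Y253.CR

/-- the cells of lines, each used infinitely often -/
structure Cells where
  x : ℕ → ℝ × ℝ
  e : ℕ → ℝ
  c0 : ℕ → ℝ
  kill : ∀ n, CellKill2 (x n) (e n) (c0 n)
  cover : ∀ θ p : ℝ, |p| < 1 → ∃ c1 > 0, √(1 - p ^ 2) ≤ 20 * c1 ∧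
    ∀ n, ∃ m ≥ n, |θ - (x m).1| ≤ e m ∧ |p - (x m).2| ≤ e m ∧ c0 m = c1

theorem exists_cells (hk : Kill2Stmt) : Nonempty Cells := by
  classical
  let X := {q : ℝ × ℝ // |q.2| < 1}
  choose e he c0 hc0 hroot hkill using fun q : X => hk q.1.1 q.1.2 q.2
  have hnhds : ∀ q : X, {y : X | |y.1.1 - q.1.1| < e q ∧ |y.1.2 - q.1.2| < e q} ∈ 𝓝 q := by
    intro q
    have o1 : IsOpen {y : X | |y.1.1 - q.1.1| < e q} := isOpen_lt (by fun_prop) (by fun_prop)
    have o2 : IsOpen {y : X | |y.1.2 - q.1.2| < e q} := isOpen_lt (by fun_prop) (by fun_prop)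
    apply (o1.inter o2).mem_nhds
    simp [he q]
  obtain ⟨S, hS, hcov⟩ := TopologicalSpace.countable_cover_nhds hnhds
  have hSne : S.Nonempty := by
    by_contra hcon
    rw [not_nonempty_iff_eq_empty] at hcon
    rw [hcon] at hcov
    simp only [mem_empty_iff_false, iUnion_of_empty, iUnion_empty] at hcov
    have : (⟨(0, 0), by simp⟩ : X) ∈ (∅ : Set X) := by rw [hcov]; trivial
    exact this
  obtain ⟨f, hf⟩ := hS.exists_eq_range hSne
  refine ⟨⟨fun m => (f (Nat.unpair m).1).1, fun m => e (f (Nat.unpair m).1),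
    fun m => c0 (f (Nat.unpair m).1), fun m => hkill _, ?_⟩⟩
  intro θ p hp
  have h1 : (⟨(θ, p), hp⟩ : X) ∈ ⋃ x ∈ S, {y : X | |y.1.1 - x.1.1| < e x ∧ |y.1.2 - x.1.2| < e x} := by
    rw [hcov]; trivial
  simp only [mem_iUnion] at h1
  obtain ⟨x, hxS, hx⟩ := h1
  rw [hf] at hxS
  obtain ⟨i, hi⟩ := hxS
  refine ⟨c0 x, hc0 x, hroot x p hx.2.le, ?_⟩
  intro n
  refine ⟨Nat.pair i n, Nat.right_le_pair _ _, ?_⟩
  simp only [Nat.unpair_pair, hi]
  exact ⟨hx.1.le, hx.2.le, trivial⟩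

/-- state of the construction: density, budget, radius, newest level, centres -/
structure St where
  h : ℂ → ℝ
  β : ℝ
  r : ℝ
  u : ℝ
  S : Finset ℝ
  nice : Nice h
  pos : ∀ l : ℝ × ℝ, |l.2| < 1 → 0 < Rad h l
  βpos : 0 < β
  rpos : 0 < r
  upos : 0 < u
  ru : r ≤ u / 40
  Spos : ∀ s ∈ S, r < s
  umem : u ∈ S

/-- one stage of the construction -/
structure Stage (C : Cells) (mf : ℝ → ℝ) (ε : ℝ) (n : ℕ) (a b : St) (U : Set ℂ) : Prop where
  hU : MeasurableSet U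
  Ub : U ⊆ Metric.ball 0 1
  βle : b.β ≤ a.β / 2
  rad : ∀ l, |Rad b.h l - Rad a.h l| ≤ a.β / 2
  rel : ∀ l, |Rad b.h l - Rad a.h l| ≤ (1 / 4) ^ (n + 1) * Rad a.h l
  dif : ∀ l, Rad (fun z => |b.h z - a.h z|) l ≤
    2 * Rad (fun z => a.h z * (1 - a.h z)) l + ε * (1 / 4) ^ (n + 1)
  J : ∀ l, Rad (fun z => b.h z * (1 - b.h z)) l ≤ ε * (1 / 4) ^ (n + 1)
  serve : ∀ s ∈ b.S, ∀ θ p, |θ - (C.x n).1| ≤ C.e n → |p - (C.x n).2| ≤ C.e n →
    |Rad b.h (θ, p) - s| ≤ b.β + b.r →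
      ENNReal.ofReal (C.c0 n) ≤ volume {σ : ℝ | pt θ p σ ∈ U}
  star : ∀ l : ℝ × ℝ, (∀ s ∈ b.S, (1 / 4) ^ (n + 1) ≤ |Rad a.h l - s|) →
    volume {σ : ℝ | pt l.1 l.2 σ ∈ U} ≤ ENNReal.ofReal ((1 / 4) ^ (n + 1))
  area : volume U ≤ ENNReal.ofReal ((1 / 4) ^ (n + 1))
  rle : b.r ≤ a.r / 8
  child : ∀ s ∈ a.S, ∃ s' ∈ b.S, ∃ s'' ∈ b.S,
    |s' - s| ≤ a.r / 2 ∧ |s'' - s| ≤ a.r / 2 ∧ a.r / 2 ≤ |s' - s''|
  parent : ∀ s' ∈ b.S, (∃ s ∈ a.S, |s' - s| ≤ a.r / 2) ∨ s' = b.u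
  ule : b.u ≤ a.u / 2
  usp : b.u ≤ mf a.u

theorem exists_stage (hL : S_LEV) (hA : S_AREA) (hM : S_MULTI) (hai : AI2Stmt) (C : Cells)
    (mf : ℝ → ℝ) (hmf : ∀ x, 0 < x → 0 < mf x) (ε : ℝ) (hε : 0 < ε) (n : ℕ) (a : St) :
    ∃ b U, Stage C mf ε n a b U := by
  classical
  have key : ∀ s : ℝ, ∃ s' s'' : ℝ, (s + 3 * a.r / 8 < s' ∧ s' < s + a.r / 2 ∧
      volume {p : ℝ | p ∈ Icc (-1 : ℝ) 1 ∧ Rad a.h (0, p) = s'} = 0) ∧
      (s - a.r / 2 < s'' ∧ s'' < s - 3 * a.r / 8 ∧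
      volume {p : ℝ | p ∈ Icc (-1 : ℝ) 1 ∧ Rad a.h (0, p) = s''} = 0) := by
    intro s
    have hr := a.rpos
    obtain ⟨s', h1⟩ := hL a.h a.nice (s + 3 * a.r / 8) (s + a.r / 2) (by linarith)
    obtain ⟨s'', h2⟩ := hL a.h a.nice (s - a.r / 2) (s - 3 * a.r / 8) (by linarith)
    exact ⟨s', s'', h1, h2⟩
  choose f g hf hg using key
  have hm0 : 0 < min (a.u / 2) (mf a.u) := lt_min (half_pos a.upos) (hmf _ a.upos)
  obtain ⟨u', hu1, hu2, hu3⟩ := hL a.h a.nice (min (a.u / 2) (mf a.u) / 2) (min (a.u / 2) (mf a.u))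
    (by linarith)
  have hu0 : 0 < u' := by linarith
  set S' : Finset ℝ := insert u' (a.S.image f ∪ a.S.image g) with hS'
  have hSnull : ∀ s ∈ S', volume {p : ℝ | p ∈ Icc (-1 : ℝ) 1 ∧ Rad a.h (0, p) = s} = 0 := by
    intro s hs
    rw [hS', Finset.mem_insert, Finset.mem_union, Finset.mem_image, Finset.mem_image] at hs
    rcases hs with rfl | ⟨x, _, rfl⟩ | ⟨x, _, rfl⟩
    · exact hu3
    · exact (hf x).2.2
    · exact (hg x).2.2
  have hSpos : ∀ s ∈ S', a.r / 2 < s ∨ s = u' := by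
    intro s hs
    rw [hS', Finset.mem_insert, Finset.mem_union, Finset.mem_image, Finset.mem_image] at hs
    have hr := a.rpos
    rcases hs with rfl | ⟨x, hx, rfl⟩ | ⟨x, hx, rfl⟩
    · right; rfl
    · left
      have := a.Spos x hx
      have := (hf x).1
      linarith
    · left
      have := a.Spos x hx
      have := (hg x).1
      linarith
  have hSpos' : ∀ s ∈ S', 0 < s := by
    intro s hs
    have hr := a.rpos
    rcases hSpos s hs with h | h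
    · linarith
    · rw [h]; exact hu0
  obtain ⟨ε1, he1, he2, he3⟩ := hA a.h a.nice S' hSnull ((1 / 4) ^ (n + 1)) (by positivity)
  set ε2 : ℝ := min ε1 (min ((1 / 4) ^ (n + 1)) (ε * (1 / 4) ^ (n + 1))) with hε2
  have h20 : 0 < ε2 := by positivity
  have h21 : ε2 ≤ ε1 := min_le_left _ _
  have h22 : ε2 ≤ (1 / 4) ^ (n + 1) := (min_le_right _ _).trans (min_le_left _ _)
  have h23 : ε2 ≤ ε * (1 / 4) ^ (n + 1) := (min_le_right _ _).trans (min_le_right _ _)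
  obtain ⟨h', β', U, m1, m2, m3, m4, m5, m6, m7, m8, m9, m10, m11, m12⟩ :=
    hM hai (C.x n) (C.e n) (C.c0 n) (C.kill n) S' hSpos' a.h a.nice a.pos a.β ε2 a.βpos h20
  set r' : ℝ := min (a.r / 8) (min (β' / 2) (u' / 40)) with hr'
  have hr := a.rpos
  have r0 : 0 < r' := by positivity
  have r1 : r' ≤ a.r / 8 := min_le_left _ _
  have r2 : r' ≤ β' / 2 := (min_le_right _ _).trans (min_le_left _ _)
  have r3 : r' ≤ u' / 40 := (min_le_right _ _).trans (min_le_right _ _)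
  have hRn : ∀ l, 0 ≤ Rad a.h l := fun l => F2.rad_nonneg a.nice.nonneg l
  refine ⟨⟨h', β' / 2, r', u', S', m1, m2, half_pos m3, r0, hu0, r3, ?_, Finset.mem_insert_self _ _⟩,
    U, ⟨m4, m5, ?_, m7, ?_, ?_, ?_, ?_, ?_, ?_, r1, ?_, ?_, ?_, ?_⟩⟩
  · intro s hs
    rcases hSpos s hs with h | h
    · linarith
    · rw [h]; linarith
  · show β' / 2 ≤ a.β / 2
    have := a.βpos
    linarith
  · intro l
    exact (m8 l).trans (mul_le_mul_of_nonneg_right h22 (hRn l))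
  · intro l
    have := m9 l
    linarith
  · intro l
    exact (m10 l).trans h23
  · intro s hs θ p h1 h2 h3
    apply m11 s hs θ p h1 h2
    have h4 : |Rad h' (θ, p) - s| ≤ β' / 2 + r' := h3
    linarith
  · intro l hl
    exact (m12 l fun s hs => h22.trans (hl s hs)).trans (ENNReal.ofReal_le_ofReal h22)
  · apply he3 U m4 m5
    intro l hl
    exact (m12 l fun s hs => h21.trans (hl s hs)).trans (ENNReal.ofReal_le_ofReal h21)
  · intro s hs
    refine ⟨f s, ?_, g s, ?_, ?_, ?_, ?_⟩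
    · show f s ∈ S'
      rw [hS', Finset.mem_insert, Finset.mem_union, Finset.mem_image]
      exact Or.inr (Or.inl ⟨s, hs, rfl⟩)
    · show g s ∈ S'
      rw [hS', Finset.mem_insert, Finset.mem_union, Finset.mem_image, Finset.mem_image]
      exact Or.inr (Or.inr ⟨s, hs, rfl⟩)
    · have := hf s
      rw [abs_le]; constructor <;> linarith [this.1, this.2.1]
    · have := hg s
      rw [abs_le]; constructor <;> linarith [this.1, this.2.1]
    · have h1 := hf s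
      have h2 := hg s
      have : a.r / 2 ≤ f s - g s := by linarith [h1.1, h2.2.1]
      exact this.trans (le_abs_self _)
  · intro s hs
    have hs' : s ∈ S' := hs
    rw [hS', Finset.mem_insert, Finset.mem_union, Finset.mem_image, Finset.mem_image] at hs'
    rcases hs' with rfl | ⟨x, hx, rfl⟩ | ⟨x, hx, rfl⟩
    · right; rfl
    · left
      refine ⟨x, hx, ?_⟩
      have := hf x
      rw [abs_le]; constructor <;> linarith [this.1, this.2.1]
    · left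
      refine ⟨x, hx, ?_⟩
      have := hg x
      rw [abs_le]; constructor <;> linarith [this.1, this.2.1]
  · show u' ≤ a.u / 2
    exact hu2.le.trans (min_le_left _ _)
  · show u' ≤ mf a.u
    exact hu2.le.trans (min_le_right _ _)

/-- the whole construction -/
structure Ch (C : Cells) (mf : ℝ → ℝ) (ε : ℝ) where
  s : ℕ → St
  U : ℕ → Set ℂ
  ε1 : ε ≤ 1
  S0 : ∀ t ∈ (s 0).S, t = (s 0).u
  stage : ∀ n, Stage C mf ε n (s n) (s (n + 1)) (U n)

theorem exists_ch (hL : S_LEV) (hA : S_AREA) (hM : S_MULTI) (hai : AI2Stmt) (C : Cells)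
    (mf : ℝ → ℝ) (hmf : ∀ x, 0 < x → 0 < mf x) (ε : ℝ) (hε : 0 < ε) (hε1 : ε ≤ 1) (h0 : ℂ → ℝ) (hn : Nice h0)
    (hp : ∀ l : ℝ × ℝ, |l.2| < 1 → 0 < Rad h0 l) (u0 : ℝ) (hu0 : 0 < u0) :
    ∃ c : Ch C mf ε, (c.s 0).h = h0 ∧ (c.s 0).u = u0 := by
  classical
  choose nx U hU using fun (n : ℕ) (a : St) => exists_stage hL hA hM hai C mf hmf ε hε n a
  let a0 : St := ⟨h0, 1, u0 / 40, u0, {u0}, hn, hp, one_pos, by positivity, hu0, le_rfl, by
    intro s hs
    rw [Finset.mem_singleton] at hs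
    rw [hs]; linarith, Finset.mem_singleton_self _⟩
  let s : ℕ → St := fun n => Nat.rec a0 (fun n a => nx n a) n
  refine ⟨⟨s, fun n => U n (s n), hε1, ?_, fun n => hU n (s n)⟩, rfl, rfl⟩
  intro t ht
  exact Finset.mem_singleton.1 ht

end Pool.Agent.Y253.CR
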