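import Pool.Agent.Y253.CR.Lim

/-! Missed levels, null lines and served lines (helper253). -/

open MeasureTheory Real Set Filter Topology Croft

namespace Pool.Agent.Y253.CR
open Croft.F2

variable {C : Cells} {mf : ℝ → ℝ} {ε : ℝ} (c : Ch C mf ε)

/-- the set of the missed levels -/
def Ch.L : Set ℝ := {t | ∃ k, ∀ n ≥ k, ∃ s ∈ c.S n, |t - s| ≤ c.r n}

theorem Ch.rle (n : ℕ) : c.r (n + 1) ≤ c.r n / 8 := (c.stage n).rle
theorem Ch.ule (n : ℕ) : c.u (n + 1) ≤ c.u n / 2 := (c.stage n).ule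
theorem Ch.ru (n : ℕ) : c.r n ≤ c.u n / 40 := (c.s n).ru

theorem Ch.u_anti : StrictAnti c.u := strictAnti_nat_of_succ_lt fun k => by
  have := c.ule k
  have := c.upos k
  linarith

theorem Ch.u_tendsto : Tendsto c.u atTop (𝓝 0) := by
  have h1 : ∀ n, c.u n ≤ c.u 0 * (1 / 2) ^ n := by
    intro n
    induction n with
    | zero => simp
    | succ n ih =>
      have := c.ule n
      rw [pow_succ]
      linarith
  refine squeeze_zero (fun n => (c.upos n).le) h1 ?_
  have := (tendsto_pow_atTop_nhds_zero_of_lt_one (by norm_num : (0:ℝ) ≤ 1 / 2) (by norm_num)).const_mul (c.u 0)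
  simpa using this

theorem Ch.root (n : ℕ) : ∀ s ∈ c.S n, ∃ k ≤ n, |s - c.u k| ≤ 2 * c.r k - 2 * c.r n := by
  induction n with
  | zero =>
    intro s hs
    refine ⟨0, le_rfl, ?_⟩
    have : s = c.u 0 := c.S0 s hs
    rw [this]; simp
  | succ n ih =>
    intro s hs
    have h1 := c.rle n
    have h2 := c.rpos n
    rcases (c.stage n).parent s hs with ⟨s0, hs0, h3⟩ | h3
    · obtain ⟨k, hk, h4⟩ := ih s0 hs0
      refine ⟨k, by omega, ?_⟩
      have h5 := abs_sub_le s s0 (c.u k)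
      have h3' : |s - s0| ≤ c.r n / 2 := h3
      linarith
    · refine ⟨n + 1, le_rfl, ?_⟩
      have : s = c.u (n + 1) := h3
      rw [this]; simp

theorem Ch.cluster {t : ℝ} (ht : t ∈ c.L) : ∃ k, |t - c.u k| ≤ c.u k / 20 := by
  obtain ⟨n, hn⟩ := ht
  obtain ⟨s, hs, h1⟩ := hn n le_rfl
  obtain ⟨k, _, h2⟩ := c.root n s hs
  refine ⟨k, ?_⟩
  have h3 := abs_sub_le t s (c.u k)
  have h4 := c.ru k
  have h5 := c.rpos n
  linarith

theorem Ch.away {R : ℝ} (hR : 0 < R) (hRL : R ∉ c.L) :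
    ∃ d > 0, ∃ n0, ∀ m ≥ n0, ∀ s ∈ c.S m, d ≤ |R - s| := by
  obtain ⟨k1, hk1⟩ := eventually_atTop.1 (c.u_tendsto.eventually_lt_const (show (0:ℝ) < R / 4 by positivity))
  have h1 : ∃ n ≥ k1, ∀ s ∈ c.S n, c.r n < |R - s| := by
    by_contra hcon
    push Not at hcon
    exact hRL ⟨k1, hcon⟩
  obtain ⟨n, hn, h2⟩ := h1
  obtain ⟨s0, hs0, h3⟩ := Finset.exists_min_image (c.S n) (fun s => |R - s| - c.r n)
    ⟨c.u n, (c.s n).umem⟩
  have h4 : 0 < |R - s0| - c.r n := by linarith [h2 s0 hs0]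
  refine ⟨min (|R - s0| - c.r n) (R / 2), lt_min h4 (half_pos hR), n, ?_⟩
  set d := min (|R - s0| - c.r n) (R / 2) with hd
  have hd1 : d ≤ |R - s0| - c.r n := min_le_left _ _
  have hd2 : d ≤ R / 2 := min_le_right _ _
  have key : ∀ j, ∀ s ∈ c.S (n + j), d + c.r (n + j) ≤ |R - s| := by
    intro j
    induction j with
    | zero =>
      intro s hs
      have := h3 s hs
      simp only [add_zero]
      linarith
    | succ j ih =>
      intro s hs
      have a1 := c.rle (n + j)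
      have a2 := c.rpos (n + j)
      rcases (c.stage (n + j)).parent s hs with ⟨s1, hs1, a3⟩ | a3
      · have a4 := ih s1 hs1
        have a5 := abs_sub_le R s s1
        have a3' : |s - s1| ≤ c.r (n + j) / 2 := a3
        show d + c.r (n + j + 1) ≤ |R - s|
        linarith
      · have a6 : s = c.u (n + j + 1) := a3
        have a7 := hk1 (n + j + 1) (by omega)
        have a8 := c.ru (n + j + 1)
        show d + c.r (n + j + 1) ≤ |R - s|
        rw [a6]
        have a9 : R - c.u (n + j + 1) ≤ |R - c.u (n + j + 1)| := le_abs_self _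
        linarith
  intro m hm s hs
  obtain ⟨j, rfl⟩ := Nat.exists_eq_add_of_le hm
  have a1 := key j s hs
  have a2 := c.rpos (n + j)
  linarith

/-- a line whose limit value is not a missed level meets `N` in a null set -/
theorem Ch.null_line (l : ℝ × ℝ) (hR : 0 < (volume {σ : ℝ | pt l.1 l.2 σ ∈ c.E0}).toReal)
    (hRL : (volume {σ : ℝ | pt l.1 l.2 σ ∈ c.E0}).toReal ∉ c.L) :
    volume {σ : ℝ | pt l.1 l.2 σ ∈ c.N} = 0 := by
  obtain ⟨d, hd, k0, hk0⟩ := c.away hR hRL
  have h1 : ∀ᶠ n in atTop, ∀ s ∈ c.S (n + 1), (1 / 4 : ℝ) ^ (n + 1) ≤ |Rad (c.h n) l - s| := by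
    have t1 : Tendsto (fun n : ℕ => (1 / 4 : ℝ) ^ (n + 1)) atTop (𝓝 0) :=
      (tendsto_add_atTop_iff_nat 1).2
        (tendsto_pow_atTop_nhds_zero_of_lt_one (by norm_num : (0:ℝ) ≤ 1 / 4) (by norm_num))
    filter_upwards [t1.eventually_lt_const (show (0:ℝ) < d / 2 by positivity),
      c.β_tendsto.eventually_lt_const (show (0:ℝ) < d / 2 by positivity),
      eventually_ge_atTop k0] with n a1 a2 a0
    intro s hs
    have a3 := c.limit_close l n
    have a4 := hk0 (n + 1) (by omega) s hs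
    have a5 := abs_sub_le (volume {σ : ℝ | pt l.1 l.2 σ ∈ c.E0}).toReal (Rad (c.h n) l) s
    rw [abs_sub_comm _ (Rad (c.h n) l)] at a5
    linarith
  obtain ⟨n0, hn0⟩ := eventually_atTop.1 h1
  have hsub : {σ : ℝ | pt l.1 l.2 σ ∈ c.N} ⊆
      limsup (fun n => {σ : ℝ | pt l.1 l.2 σ ∈ c.U (n + n0)}) atTop := by
    intro σ hσ
    have hσ' := (c.mem_N _).1 hσ
    rw [limsup_eq_iInf_iSup_of_nat]
    simp only [iInf_eq_iInter, iSup_eq_iUnion, mem_iInter, mem_iUnion, exists_prop]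
    intro n
    obtain ⟨m, hm, hmU⟩ := hσ' (n + n0)
    refine ⟨m - n0, by omega, ?_⟩
    show pt l.1 l.2 σ ∈ c.U (m - n0 + n0)
    have : m - n0 + n0 = m := by omega
    rw [this]
    exact hmU
  apply measure_mono_null hsub
  apply measure_limsup_atTop_eq_zero
  have hle : ∀ n, volume {σ : ℝ | pt l.1 l.2 σ ∈ c.U (n + n0)} ≤ ENNReal.ofReal ((1 / 4) ^ n) := by
    intro n
    refine ((c.stage (n + n0)).star l (hn0 _ (Nat.le_add_left _ _))).trans
      (ENNReal.ofReal_le_ofReal ?_)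
    exact pow_le_pow_of_le_one (by norm_num) (by norm_num) (by omega)
  refine ne_top_of_le_ne_top ?_ (ENNReal.tsum_le_tsum hle)
  rw [← ENNReal.ofReal_tsum_of_nonneg (fun n => by positivity)
    (summable_geometric_of_lt_one (by norm_num) (by norm_num))]
  exact ENNReal.ofReal_ne_top

/-- `N` is a null set -/
theorem Ch.N_null : volume c.N = 0 := by
  unfold Ch.N
  apply measure_limsup_atTop_eq_zero
  have hle : ∀ n, volume (c.U n) ≤ ENNReal.ofReal ((1 / 4) ^ n) := by
    intro n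
    refine (c.stage n).area.trans (ENNReal.ofReal_le_ofReal ?_)
    exact pow_le_pow_of_le_one (by norm_num) (by norm_num) (by omega)
  refine ne_top_of_le_ne_top ?_ (ENNReal.tsum_le_tsum hle)
  rw [← ENNReal.ofReal_tsum_of_nonneg (fun n => by positivity)
    (summable_geometric_of_lt_one (by norm_num) (by norm_num))]
  exact ENNReal.ofReal_ne_top

/-- a line whose limit value is a missed level meets `N` in a large set -/
theorem Ch.served_line (θ p : ℝ) (c1 : ℝ)
    (hRL : (volume {σ : ℝ | pt θ p σ ∈ c.E0}).toReal ∈ c.L)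
    (hinf : ∀ n, ∃ m ≥ n, |θ - (C.x m).1| ≤ C.e m ∧ |p - (C.x m).2| ≤ C.e m ∧ C.c0 m = c1) :
    ENNReal.ofReal c1 ≤ volume {σ : ℝ | pt θ p σ ∈ c.N} := by
  have hpc := pt_cont θ p
  set A : ℕ → Set ℝ := fun n => {σ : ℝ | pt θ p σ ∈ c.U n} with hA
  have hAm : ∀ n, MeasurableSet (A n) := fun n => hpc.measurable (c.hU n)
  set B : ℕ → Set ℝ := fun n => ⋃ m ≥ n, A m with hB
  have hBm : ∀ n, MeasurableSet (B n) := fun n =>
    MeasurableSet.iUnion fun m => MeasurableSet.iUnion fun _ => hAm m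
  have hBanti : Antitone B := by
    intro i j hij
    apply iUnion₂_subset
    intro m hm
    exact subset_iUnion₂_of_subset m (hij.trans hm) (Subset.refl _)
  have hBsub : B 0 ⊆ Icc (-1) 1 := by
    apply iUnion₂_subset
    intro m _ σ hσ
    have h1 := c.Ub m hσ
    rw [mem_ball_zero_iff] at h1
    by_contra hcon
    have : 1 ≤ |σ| := by
      by_contra h2
      push Not at h2
      rw [abs_lt] at h2
      exact hcon ⟨h2.1.le, h2.2.le⟩
    have := Croft.one_le_norm_pt θ p σ this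
    linarith
  have hfin : volume (B 0) ≠ ⊤ := ne_top_of_le_ne_top (by simp) (measure_mono hBsub)
  have htend := tendsto_measure_iInter_atTop (μ := volume) (fun n => (hBm n).nullMeasurableSet) hBanti ⟨0, hfin⟩
  have hge : ENNReal.ofReal c1 ≤ volume (⋂ n, B n) := by
    apply ge_of_tendsto' htend
    intro n
    obtain ⟨k, hk⟩ := hRL
    obtain ⟨m, hm, g1, g2, g4⟩ := hinf (max n k)
    obtain ⟨s, hs, g3⟩ := hk (m + 1) (by have := le_max_right n k; omega)
    have h1 := c.limit_close (θ, p) (m + 1)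
    have h3 : |Rad (c.h (m + 1)) (θ, p) - s| ≤ c.β (m + 1) + c.r (m + 1) := by
      have := abs_sub_le (Rad (c.h (m + 1)) (θ, p)) (volume {σ : ℝ | pt θ p σ ∈ c.E0}).toReal s
      linarith
    have h2 := (c.stage m).serve s hs θ p g1 g2 h3
    rw [g4] at h2
    refine h2.trans (measure_mono ?_)
    exact subset_iUnion₂_of_subset m ((le_max_left n k).trans hm) (Subset.refl _)
  refine hge.trans (measure_mono ?_)
  intro σ hσ
  show pt θ p σ ∈ c.N
  rw [c.mem_N]
  intro n
  have := mem_iInter.1 hσ n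
  simp only [hB, mem_iUnion] at this
  obtain ⟨m, hm, hm2⟩ := this
  exact ⟨m, hm, hm2⟩

end Pool.Agent.Y253.CR
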