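import Pool.Agent.Y253.CR.Ch

/-! Limit of the construction (helper253), adapted from the assembly of helper546 and helper991. -/

open MeasureTheory Real Set Filter Topology Croft

namespace Pool.Agent.Y253.CR
open Croft.F2 Croft.AI

variable {C : Cells} {mf : ℝ → ℝ} {ε : ℝ} (c : Ch C mf ε)

abbrev Ch.h (n : ℕ) : ℂ → ℝ := (c.s n).h
abbrev Ch.β (n : ℕ) : ℝ := (c.s n).β
abbrev Ch.r (n : ℕ) : ℝ := (c.s n).r
abbrev Ch.u (n : ℕ) : ℝ := (c.s n).u
abbrev Ch.S (n : ℕ) : Finset ℝ := (c.s n).S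

theorem Ch.nice (n : ℕ) : Nice (c.h n) := (c.s n).nice
theorem Ch.βpos (n : ℕ) : 0 < c.β n := (c.s n).βpos
theorem Ch.rpos (n : ℕ) : 0 < c.r n := (c.s n).rpos
theorem Ch.upos (n : ℕ) : 0 < c.u n := (c.s n).upos
theorem Ch.hU (n : ℕ) : MeasurableSet (c.U n) := (c.stage n).hU
theorem Ch.Ub (n : ℕ) : c.U n ⊆ Metric.ball 0 1 := (c.stage n).Ub
theorem Ch.βle (n : ℕ) : c.β (n + 1) ≤ c.β n / 2 := (c.stage n).βle
theorem Ch.rad (n : ℕ) (l : ℝ × ℝ) : |Rad (c.h (n + 1)) l - Rad (c.h n) l| ≤ c.β n / 2 :=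
  (c.stage n).rad l
theorem Ch.rel (n : ℕ) (l : ℝ × ℝ) :
    |Rad (c.h (n + 1)) l - Rad (c.h n) l| ≤ (1 / 4) ^ (n + 1) * Rad (c.h n) l := (c.stage n).rel l
include c in
theorem Ch.eps_le (n : ℕ) : ε * (1 / 4) ^ (n + 1) ≤ (1 / 4 : ℝ) ^ (n + 1) := by
  have h1 : (0 : ℝ) < (1 / 4) ^ (n + 1) := by positivity
  have h2 := c.ε1
  nlinarith
theorem Ch.dif (n : ℕ) (l : ℝ × ℝ) : Rad (fun z => |c.h (n + 1) z - c.h n z|) l ≤
    2 * Rad (fun z => c.h n z * (1 - c.h n z)) l + (1 / 4) ^ (n + 1) := by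
  have h1 := (c.stage n).dif l
  have h2 := c.eps_le n
  linarith
theorem Ch.J (n : ℕ) (l : ℝ × ℝ) : Rad (fun z => c.h (n + 1) z * (1 - c.h (n + 1) z)) l ≤
    (1 / 4) ^ (n + 1) := by
  have h1 := (c.stage n).J l
  have h2 := c.eps_le n
  linarith

theorem Ch.rad_le (k j : ℕ) (l : ℝ × ℝ) : |Rad (c.h (k + j)) l - Rad (c.h k) l| ≤ c.β k - c.β (k + j) := by
  induction j with
  | zero => simp
  | succ j ih =>
    have h1 := c.rad (k + j) l
    have h2 := c.βle (k + j)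
    rw [← add_assoc]
    calc _ = |(Rad (c.h (k + j + 1)) l - Rad (c.h (k + j)) l) + (Rad (c.h (k + j)) l - Rad (c.h k) l)| := by
          congr 1; ring
      _ ≤ |Rad (c.h (k + j + 1)) l - Rad (c.h (k + j)) l| + |Rad (c.h (k + j)) l - Rad (c.h k) l| :=
          abs_add_le _ _
      _ ≤ _ := by linarith

theorem Ch.rad_le' (k m : ℕ) (hkm : k ≤ m) (l : ℝ × ℝ) :
    |Rad (c.h m) l - Rad (c.h k) l| ≤ c.β k := by
  obtain ⟨j, rfl⟩ := Nat.exists_eq_add_of_le hkm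
  have := c.rad_le k j l
  have := c.βpos (k + j)
  linarith

theorem Ch.β_tendsto : Tendsto c.β atTop (𝓝 0) := by
  have h1 : ∀ n, c.β n ≤ c.β 0 * (1 / 2) ^ n := by
    intro n
    induction n with
    | zero => simp
    | succ n ih =>
      have := c.βle n
      rw [pow_succ]
      linarith
  refine squeeze_zero (fun n => (c.βpos n).le) h1 ?_
  have := (tendsto_pow_atTop_nhds_zero_of_lt_one (by norm_num : (0:ℝ) ≤ 1 / 2) (by norm_num)).const_mul (c.β 0)
  simpa using this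

theorem Ch.rel_bounds (n : ℕ) (l : ℝ × ℝ) :
    (1 / 2 + (1 / 2) ^ (n + 1)) * Rad (c.h 0) l ≤ Rad (c.h n) l ∧
      Rad (c.h n) l ≤ (2 - (1 / 2) ^ n) * Rad (c.h 0) l := by
  have h0 : 0 ≤ Rad (c.h 0) l := rad_nonneg (c.nice 0).nonneg l
  induction n with
  | zero => constructor <;> norm_num
  | succ n ih =>
    obtain ⟨i1, i2⟩ := ih
    have a1 := abs_le.1 (c.rel n l)
    have hq : (0:ℝ) < (1 / 2) ^ (n + 1) := by positivity
    have hq1 : ((1:ℝ) / 2) ^ (n + 1) ≤ 1 / 2 := by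
      rw [pow_succ]
      have : ((1:ℝ) / 2) ^ n ≤ 1 := pow_le_one₀ (by norm_num) (by norm_num)
      linarith
    have e4 : ((1:ℝ) / 4) ^ (n + 1) = (1 / 2) ^ (n + 1) * (1 / 2) ^ (n + 1) := by
      rw [← mul_pow]; norm_num
    have e1 : ((1:ℝ) / 2) ^ (n + 1 + 1) = (1 / 2) ^ (n + 1) * (1 / 2) := pow_succ _ _
    have e2 : ((1:ℝ) / 2) ^ n = 2 * (1 / 2) ^ (n + 1) := by rw [pow_succ]; ring
    rw [e4] at a1
    rw [e1]
    rw [e2] at i2
    set q : ℝ := (1 / 2) ^ (n + 1) with hqd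
    constructor
    · have b1 : (1 - q * q) * Rad (c.h n) l ≤ Rad (c.h (n + 1)) l := by linarith [a1.1]
      have b2 : (1 - q * q) * ((1 / 2 + q) * Rad (c.h 0) l) ≤ (1 - q * q) * Rad (c.h n) l :=
        mul_le_mul_of_nonneg_left i1 (by nlinarith)
      have b3 : (1 / 2 + q * (1 / 2)) * Rad (c.h 0) l ≤ (1 - q * q) * ((1 / 2 + q) * Rad (c.h 0) l) := by
        rw [← mul_assoc]
        apply mul_le_mul_of_nonneg_right _ h0
        nlinarith
      linarith
    · have b1 : Rad (c.h (n + 1)) l ≤ (1 + q * q) * Rad (c.h n) l := by linarith [a1.2]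
      have b2 : (1 + q * q) * Rad (c.h n) l ≤ (1 + q * q) * ((2 - 2 * q) * Rad (c.h 0) l) :=
        mul_le_mul_of_nonneg_left i2 (by nlinarith)
      have b3 : (1 + q * q) * ((2 - 2 * q) * Rad (c.h 0) l) ≤ (2 - q) * Rad (c.h 0) l := by
        rw [← mul_assoc]
        apply mul_le_mul_of_nonneg_right _ h0
        nlinarith
      linarith

/-- convergence almost everywhere on EVERY line -/
theorem Ch.line_conv (l : ℝ × ℝ) : ∀ᵐ σ : ℝ, Tendsto (fun n => c.h n (pt l.1 l.2 σ)) atTop (𝓝 0) ∨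
    Tendsto (fun n => c.h n (pt l.1 l.2 σ)) atTop (𝓝 1) := by
  have s2 : Summable (fun n : ℕ => ((1:ℝ) / 4) ^ (n + 1)) :=
    (summable_nat_add_iff 1).2 (summable_geometric_of_lt_one (by norm_num) (by norm_num))
  have hs1 : ∀ n, ∫ σ : ℝ, |c.h (n + 2) (pt l.1 l.2 σ) - c.h (n + 1) (pt l.1 l.2 σ)| ≤
      3 * (1 / 4) ^ (n + 1) := by
    intro n
    have a1 := c.dif (n + 1) l
    have a2 := c.J n l
    have a3 : ((1:ℝ) / 4) ^ (n + 1 + 1) = (1 / 4) ^ (n + 1) * (1 / 4) := pow_succ _ _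
    have a4 : (0:ℝ) < (1 / 4) ^ (n + 1) := by positivity
    have a5 : ∫ σ : ℝ, |c.h (n + 2) (pt l.1 l.2 σ) - c.h (n + 1) (pt l.1 l.2 σ)| =
      Rad (fun z => |c.h (n + 1 + 1) z - c.h (n + 1) z|) l := rfl
    rw [a5]
    linarith
  have b1 := ae_summable1 (fun n σ => |c.h (n + 2) (pt l.1 l.2 σ) - c.h (n + 1) (pt l.1 l.2 σ)|)
    (fun n => line_int (G := fun z => |c.h (n + 2) z - c.h (n + 1) z|)
      ((c.nice (n + 2)).c1.continuous.sub (c.nice (n + 1)).c1.continuous).abs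
      (fun z hz => by simp [(c.nice (n + 2)).supp z hz, (c.nice (n + 1)).supp z hz]) l)
    (fun n z => abs_nonneg _) _ (s2.mul_left 3) hs1
  have b2 := ae_summable1 (fun n σ => c.h (n + 1) (pt l.1 l.2 σ) * (1 - c.h (n + 1) (pt l.1 l.2 σ)))
    (fun n => line_int (G := fun z => c.h (n + 1) z * (1 - c.h (n + 1) z))
      ((c.nice (n + 1)).c1.continuous.mul (continuous_const.sub (c.nice (n + 1)).c1.continuous))
      (fun z hz => by simp [(c.nice (n + 1)).supp z hz]) l)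
    (fun n z => mul_nonneg ((c.nice (n + 1)).nonneg _) (by linarith [(c.nice (n + 1)).le_one (pt l.1 l.2 z)]))
    _ s2 (fun n => c.J n l)
  filter_upwards [b1, b2] with σ z1 z2
  have k1 : CauchySeq (fun n => c.h (n + 1) (pt l.1 l.2 σ)) := by
    apply cauchySeq_of_summable_dist
    refine z1.congr ?_
    intro n
    rw [Real.dist_eq, abs_sub_comm]
  obtain ⟨L, hL⟩ := cauchySeq_tendsto_of_complete k1
  have k2 := z2.tendsto_atTop_zero
  have k3 : Tendsto (fun n => c.h (n + 1) (pt l.1 l.2 σ) * (1 - c.h (n + 1) (pt l.1 l.2 σ))) atTop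
      (𝓝 (L * (1 - L))) := hL.mul (hL.const_sub 1)
  have k4 := tendsto_nhds_unique k2 k3
  have hL' : Tendsto (fun n => c.h n (pt l.1 l.2 σ)) atTop (𝓝 L) := (tendsto_add_atTop_iff_nat 1).1 hL
  rcases mul_eq_zero.1 k4.symm with h | h
  · left; rw [h] at hL'; exact hL'
  · right
    have : L = 1 := by linarith
    rw [this] at hL'; exact hL'

/-- the limit set -/
def Ch.E0 : Set ℂ := {z | Tendsto (fun n => c.h n z) atTop (𝓝 1)}

/-- the exceptional set -/
def Ch.N : Set ℂ := limsup c.U atTop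

theorem Ch.measE0 : MeasurableSet c.E0 :=
  measurableSet_tendsto _ (fun n => (c.nice n).c1.continuous.measurable)

theorem Ch.measN : MeasurableSet c.N := MeasurableSet.measurableSet_limsup c.hU

theorem Ch.E0_sub : c.E0 ⊆ Metric.ball 0 1 := by
  intro z hz
  rw [mem_ball_zero_iff]
  by_contra hcon
  push Not at hcon
  have h1 : Tendsto (fun n => c.h n z) atTop (𝓝 0) := by
    have : (fun n => c.h n z) = fun _ => 0 := by
      ext n
      exact (c.nice n).supp z hcon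
    rw [this]
    exact tendsto_const_nhds
  have := tendsto_nhds_unique h1 hz
  norm_num at this

theorem Ch.mem_N (z : ℂ) : z ∈ c.N ↔ ∀ n, ∃ m ≥ n, z ∈ c.U m := by
  unfold Ch.N
  rw [limsup_eq_iInf_iSup_of_nat]
  simp only [iInf_eq_iInter, iSup_eq_iUnion, mem_iInter, mem_iUnion, exists_prop]

theorem Ch.N_sub : c.N ⊆ Metric.ball 0 1 := by
  intro z hz
  rw [c.mem_N] at hz
  obtain ⟨m, _, hm⟩ := hz 0
  exact c.Ub m hm

theorem Ch.rad_tendsto (l : ℝ × ℝ) :
    Tendsto (fun n => Rad (c.h n) l) atTop (𝓝 (volume {σ : ℝ | pt l.1 l.2 σ ∈ c.E0}).toReal) := by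
  have hpc := pt_cont l.1 l.2
  have hms : MeasurableSet {σ : ℝ | pt l.1 l.2 σ ∈ c.E0} := hpc.measurable c.measE0
  have e1 : (volume {σ : ℝ | pt l.1 l.2 σ ∈ c.E0}).toReal =
      ∫ σ : ℝ, Set.indicator {σ : ℝ | pt l.1 l.2 σ ∈ c.E0} (fun _ => (1:ℝ)) σ := by
    rw [integral_indicator hms]
    simp [Measure.real]
  rw [e1]
  unfold Rad
  apply tendsto_integral_of_dominated_convergence (Set.indicator (Icc (-1:ℝ) 1) (fun _ => (1:ℝ)))
  · intro n
    exact ((c.nice n).c1.continuous.comp hpc).aestronglyMeasurable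
  · rw [integrable_indicator_iff measurableSet_Icc]
    exact integrableOn_const (by simp)
  · intro n
    refine Filter.Eventually.of_forall ?_
    intro σ
    by_cases hσ : σ ∈ Icc (-1:ℝ) 1
    · rw [indicator_of_mem hσ, Real.norm_eq_abs, abs_of_nonneg ((c.nice n).nonneg _)]
      exact (c.nice n).le_one _
    · rw [indicator_of_notMem hσ]
      have : 1 ≤ |σ| := by
        by_contra h2
        push Not at h2
        rw [abs_lt] at h2
        exact hσ ⟨h2.1.le, h2.2.le⟩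
      rw [(c.nice n).supp _ (Croft.one_le_norm_pt _ _ _ this), norm_zero]
  · filter_upwards [c.line_conv l] with σ hσ
    rcases hσ with h2 | h2
    · have h3 : σ ∉ {σ : ℝ | pt l.1 l.2 σ ∈ c.E0} := by
        intro h4
        have := tendsto_nhds_unique h2 h4
        norm_num at this
      rw [indicator_of_notMem h3]
      exact h2
    · rw [indicator_of_mem (show σ ∈ {σ : ℝ | pt l.1 l.2 σ ∈ c.E0} from h2)]
      exact h2

theorem Ch.limit_close (l : ℝ × ℝ) (k : ℕ) :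
    |Rad (c.h k) l - (volume {σ : ℝ | pt l.1 l.2 σ ∈ c.E0}).toReal| ≤ c.β k := by
  have h1 := (c.rad_tendsto l).sub_const (Rad (c.h k) l)
  have h2 := h1.abs
  rw [abs_sub_comm]
  apply le_of_tendsto h2
  filter_upwards [eventually_ge_atTop k] with m hm
  exact c.rad_le' k m hm l

theorem Ch.limit_rel (l : ℝ × ℝ) :
    1 / 2 * Rad (c.h 0) l ≤ (volume {σ : ℝ | pt l.1 l.2 σ ∈ c.E0}).toReal ∧
      (volume {σ : ℝ | pt l.1 l.2 σ ∈ c.E0}).toReal ≤ 2 * Rad (c.h 0) l := by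
  have h0 : 0 ≤ Rad (c.h 0) l := rad_nonneg (c.nice 0).nonneg l
  constructor
  · apply ge_of_tendsto' (c.rad_tendsto l)
    intro n
    have := (c.rel_bounds n l).1
    have h2 : (0:ℝ) ≤ (1 / 2) ^ (n + 1) * Rad (c.h 0) l := by positivity
    linarith
  · apply le_of_tendsto' (c.rad_tendsto l)
    intro n
    have := (c.rel_bounds n l).2
    have h2 : (0:ℝ) ≤ (1 / 2) ^ n * Rad (c.h 0) l := by positivity
    linarith

end Pool.Agent.Y253.CR
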